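import Pool.Agent.Helper64.AS.Defs

/-!
# Many rough squarefree numbers (module `rough` of the project `MP_65a63f_AS`)
-/

set_option autoImplicit false

open Finset

namespace Pool.Agent.Helper71.AS

namespace Rough

/-- the numbers `≤ Y` without a prime factor in `P` -/
def Rg (Y : ℕ) (P : Finset ℕ) : Finset ℕ := (Icc 1 Y).filter fun n => ∀ p ∈ P, ¬ p ∣ n

/-- the sum of the reciprocals -/
noncomputable def T (Y : ℕ) (P : Finset ℕ) : ℝ := ∑ n ∈ Rg Y P, (1 : ℝ) / n

theorem T_nonneg (Y : ℕ) (P : Finset ℕ) : 0 ≤ T Y P := Finset.sum_nonneg fun _ _ => by positivity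

theorem mem_Rg {Y : ℕ} {P : Finset ℕ} {n : ℕ} : n ∈ Rg Y P ↔ (1 ≤ n ∧ n ≤ Y) ∧ ∀ p ∈ P, ¬ p ∣ n := by
  unfold Rg
  rw [mem_filter, mem_Icc]

/-- the multiples of `k` among the elements of `Rg Y P` -/
theorem sum_mul_le (Y : ℕ) (P : Finset ℕ) {k : ℕ} (hk : 1 ≤ k) :
    ∑ n ∈ (Rg Y P).filter (fun n => k ∣ n), (1 : ℝ) / n ≤ (1 / k) * T Y P := by
  classical
  have h1 : ∑ n ∈ (Rg Y P).filter (fun n => k ∣ n), (1 : ℝ) / n =
      ∑ m ∈ ((Rg Y P).filter (fun n => k ∣ n)).image (fun n => n / k), (1 / (k : ℝ)) * (1 / m) := by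
    rw [Finset.sum_image]
    · refine Finset.sum_congr rfl fun n hn => ?_
      rw [mem_filter] at hn
      obtain ⟨m, rfl⟩ := hn.2
      rw [Nat.mul_div_cancel_left m (by omega)]
      push_cast
      rw [div_mul_div_comm, one_mul]
    · intro a ha b hb hab
      rw [mem_coe, mem_filter] at ha hb
      obtain ⟨a, rfl⟩ := ha.2
      obtain ⟨b, rfl⟩ := hb.2
      have h2 : k * a / k = k * b / k := hab
      rw [Nat.mul_div_cancel_left _ (by omega), Nat.mul_div_cancel_left _ (by omega)] at h2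
      rw [h2]
  rw [h1, ← Finset.mul_sum]
  refine mul_le_mul_of_nonneg_left ?_ (by positivity)
  unfold T
  refine Finset.sum_le_sum_of_subset_of_nonneg ?_ fun _ _ _ => by positivity
  intro m hm
  rw [mem_image] at hm
  obtain ⟨n, hn, rfl⟩ := hm
  rw [mem_filter] at hn
  obtain ⟨m, rfl⟩ := hn.2
  rw [Nat.mul_div_cancel_left m (by omega)]
  have h2 := mem_Rg.1 hn.1
  refine mem_Rg.2 ⟨⟨?_, ?_⟩, fun p hp h3 => h2.2 p hp (h3.mul_left k)⟩
  · rcases Nat.eq_zero_or_pos m with h3 | h3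
    · rw [h3, Nat.mul_zero] at h2
      omega
    · exact h3
  · exact le_trans (Nat.le_mul_of_pos_left m (by omega)) h2.1.2

theorem T_insert (Y : ℕ) (P : Finset ℕ) {p : ℕ} (hp : 1 ≤ p) :
    (1 - 1 / (p : ℝ)) * T Y P ≤ T Y (insert p P) := by
  classical
  have h1 : T Y P = ∑ n ∈ (Rg Y P).filter (fun n => p ∣ n), (1 : ℝ) / n +
      ∑ n ∈ (Rg Y P).filter (fun n => ¬ p ∣ n), (1 : ℝ) / n := by
    unfold T
    rw [Finset.sum_filter_add_sum_filter_not]
  have h2 : ∑ n ∈ (Rg Y P).filter (fun n => ¬ p ∣ n), (1 : ℝ) / n = T Y (insert p P) := by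
    unfold T
    refine Finset.sum_congr ?_ fun _ _ => rfl
    ext n
    rw [mem_filter, mem_Rg, mem_Rg]
    constructor
    · rintro ⟨⟨h3, h4⟩, h5⟩
      refine ⟨h3, fun q hq => ?_⟩
      rcases mem_insert.1 hq with rfl | hq
      · exact h5
      · exact h4 q hq
    · rintro ⟨h3, h4⟩
      exact ⟨⟨h3, fun q hq => h4 q (mem_insert_of_mem hq)⟩, h4 p (mem_insert_self _ _)⟩
  have h3 := sum_mul_le Y P hp
  rw [← h2]
  linarith

/-- the sieve bound -/
theorem prod_le_T (Y : ℕ) (P : Finset ℕ) (hP : ∀ p ∈ P, 2 ≤ p) :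
    (∏ p ∈ P, (1 - 1 / (p : ℝ))) * T Y ∅ ≤ T Y P := by
  classical
  induction P using Finset.induction_on with
  | empty => rw [Finset.prod_empty, one_mul]
  | insert p P hp ih =>
    have h1 := ih fun q hq => hP q (mem_insert_of_mem hq)
    have hp2 : 2 ≤ p := hP p (mem_insert_self _ _)
    have h2 := T_insert Y P (p := p) (by omega)
    have h3 : (0 : ℝ) ≤ 1 - 1 / (p : ℝ) := by
      have : (1 : ℝ) / p ≤ 1 := by
        rw [div_le_one (by positivity)]
        exact_mod_cast (show 1 ≤ p by omega)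
      linarith
    rw [Finset.prod_insert hp]
    calc (1 - 1 / (p : ℝ)) * (∏ p ∈ P, (1 - 1 / (p : ℝ))) * T Y ∅
        = (1 - 1 / (p : ℝ)) * ((∏ p ∈ P, (1 - 1 / (p : ℝ))) * T Y ∅) := by ring
      _ ≤ (1 - 1 / (p : ℝ)) * T Y P := mul_le_mul_of_nonneg_left h1 h3
      _ ≤ _ := h2

/-- the primes `≤ z` -/
noncomputable def Pz (z : ℝ) : Finset ℕ := (range (⌊z⌋₊ + 1)).filter Nat.Prime

theorem mem_Pz {z : ℝ} (hz : 0 ≤ z) {p : ℕ} : p ∈ Pz z ↔ p.Prime ∧ (p : ℝ) ≤ z := by
  unfold Pz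
  rw [mem_filter, mem_range, Nat.lt_succ_iff, Nat.le_floor_iff hz, and_comm]

/-- the squarefree elements of `Rg Y P` carry half of the sum -/
theorem T_squarefree {z : ℝ} (hz : 2 ≤ z) (Y : ℕ) :
    T Y (Pz z) ≤ 2 * ∑ n ∈ (Rg Y (Pz z)).filter (fun n => Squarefree n), (1 : ℝ) / n := by
  classical
  set m : ℕ := ⌊z⌋₊ with hm
  have hm2 : 2 ≤ m := Nat.le_floor (by exact_mod_cast hz)
  have h1 : T Y (Pz z) = ∑ n ∈ (Rg Y (Pz z)).filter (fun n => Squarefree n), (1 : ℝ) / n +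
      ∑ n ∈ (Rg Y (Pz z)).filter (fun n => ¬ Squarefree n), (1 : ℝ) / n := by
    unfold T
    rw [Finset.sum_filter_add_sum_filter_not]
  have h2 : ∑ n ∈ (Rg Y (Pz z)).filter (fun n => ¬ Squarefree n), (1 : ℝ) / n ≤
      ∑ k ∈ Ioc m (m + Y), ∑ n ∈ (Rg Y (Pz z)).filter (fun n => k ^ 2 ∣ n), (1 : ℝ) / n := by
    have h3 : ∀ n ∈ (Rg Y (Pz z)).filter (fun n => ¬ Squarefree n), (1 : ℝ) / n ≤
        ∑ k ∈ Ioc m (m + Y), if k ^ 2 ∣ n then (1 : ℝ) / n else 0 := by
      intro n hn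
      rw [mem_filter] at hn
      have h4 := mem_Rg.1 hn.1
      have h5 : ∃ k : ℕ, k.Prime ∧ k * k ∣ n := by
        by_contra hc
        push Not at hc
        exact hn.2 (Nat.squarefree_iff_prime_squarefree.2 fun k hk => hc k hk)
      obtain ⟨k, hk, hkn⟩ := h5
      have h6 : k ∈ Ioc m (m + Y) := by
        refine mem_Ioc.2 ⟨?_, ?_⟩
        · by_contra hc
          push Not at hc
          refine h4.2 k ((mem_Pz (by linarith)).2 ⟨hk, ?_⟩) (dvd_trans (Dvd.intro _ rfl) hkn)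
          exact (Nat.le_floor_iff (by linarith)).1 hc
        · have h6 : k ∣ n := dvd_trans (Dvd.intro _ rfl) hkn
          have h7 := Nat.le_of_dvd (by omega) h6
          omega
      have h7 := Finset.single_le_sum (s := Ioc m (m + Y)) (f := fun k => if k ^ 2 ∣ n then (1 : ℝ) / n else 0)
        (fun k _ => by
          show (0 : ℝ) ≤ if k ^ 2 ∣ n then (1 : ℝ) / n else 0
          split_ifs
          · positivity
          · exact le_rfl) h6
      have h8 : (if k ^ 2 ∣ n then (1 : ℝ) / n else 0) = 1 / n := if_pos (by rw [pow_two]; exact hkn)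
      exact (le_of_eq h8.symm).trans h7
    refine (Finset.sum_le_sum h3).trans ?_
    rw [Finset.sum_comm]
    refine Finset.sum_le_sum fun k _ => ?_
    rw [← Finset.sum_filter]
    refine Finset.sum_le_sum_of_subset_of_nonneg ?_ fun _ _ _ => by positivity
    intro n hn
    rw [mem_filter, mem_filter] at hn
    exact mem_filter.2 ⟨hn.1.1, hn.2⟩
  have h3 : ∑ k ∈ Ioc m (m + Y), ∑ n ∈ (Rg Y (Pz z)).filter (fun n => k ^ 2 ∣ n), (1 : ℝ) / n ≤
      ∑ k ∈ Ioc m (m + Y), ((k : ℝ) ^ 2)⁻¹ * T Y (Pz z) := by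
    refine Finset.sum_le_sum fun k hk => ?_
    have h4 := sum_mul_le Y (Pz z) (k := k ^ 2) (Nat.one_le_pow _ _ (by
      have := (mem_Ioc.1 hk).1
      omega))
    rw [one_div] at h4
    push_cast at h4
    exact h4
  rw [← Finset.sum_mul] at h3
  have h4 := sum_Ioc_inv_sq_le_sub (α := ℝ) (k := m) (n := m + Y) (by omega) (by omega)
  have h5 : ∑ i ∈ Ioc m (m + Y), ((i : ℝ) ^ 2)⁻¹ ≤ 1 / 2 := by
    refine h4.trans ?_
    have h6 : ((m : ℝ))⁻¹ ≤ 1 / 2 := by
      rw [inv_le_comm₀ (by positivity) (by norm_num)]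
      norm_num
      exact_mod_cast hm2
    have h7 : (0 : ℝ) ≤ ((m + Y : ℕ) : ℝ)⁻¹ := by positivity
    linarith
  have h6 := mul_le_mul_of_nonneg_right h5 (T_nonneg Y (Pz z))
  linarith

/-- Chebyshev: the number of primes in a dyadic interval -/
theorem card_dyadic {k : ℕ} (hk : 1 ≤ k) :
    (((Ioc (2 ^ k) (2 ^ (k + 1))).filter Nat.Prime).card : ℝ) ≤ 4 * 2 ^ k / k := by
  have h1 : (2 ^ k) ^ ((Ioc (2 ^ k) (2 ^ (k + 1))).filter Nat.Prime).card ≤ primorial (2 ^ (k + 1)) := by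
    calc (2 ^ k) ^ ((Ioc (2 ^ k) (2 ^ (k + 1))).filter Nat.Prime).card
        ≤ ∏ p ∈ (Ioc (2 ^ k) (2 ^ (k + 1))).filter Nat.Prime, p := by
          refine Finset.pow_card_le_prod _ _ _ fun p hp => ?_
          exact (mem_Ioc.1 (mem_filter.1 hp).1).1.le
      _ ≤ primorial (2 ^ (k + 1)) := by
          unfold primorial
          refine Finset.prod_le_prod_of_subset_of_one_le' ?_ fun p hp _ => ?_
          · intro p hp
            rw [mem_filter, mem_Ioc] at hp
            rw [mem_filter, mem_range]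
            exact ⟨by omega, hp.2⟩
          · exact (mem_filter.1 hp).2.one_le
  have h2 := h1.trans (primorial_le_four_pow _)
  have h3 : (4 : ℕ) ^ 2 ^ (k + 1) = 2 ^ (2 * 2 ^ (k + 1)) := by
    rw [pow_mul 2 2]
    norm_num
  rw [h3, ← pow_mul] at h2
  have h4 := (Nat.pow_le_pow_iff_right (by norm_num : 1 < 2)).1 h2
  have h5 : (0 : ℝ) < k := by exact_mod_cast hk
  rw [le_div_iff₀ h5, mul_comm]
  have h6 : (k * ((Ioc (2 ^ k) (2 ^ (k + 1))).filter Nat.Prime).card : ℝ) ≤ 2 * 2 ^ (k + 1) := by exact_mod_cast h4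
  have h7 : (2 : ℝ) * 2 ^ (k + 1) = 4 * 2 ^ k := by
    rw [pow_succ]
    ring
  rw [h7] at h6
  exact h6

theorem sum_dyadic {k : ℕ} (hk : 1 ≤ k) :
    ∑ p ∈ (Ioc (2 ^ k) (2 ^ (k + 1))).filter Nat.Prime, (1 : ℝ) / p ≤ 4 / k := by
  calc ∑ p ∈ (Ioc (2 ^ k) (2 ^ (k + 1))).filter Nat.Prime, (1 : ℝ) / p
      ≤ ∑ p ∈ (Ioc (2 ^ k) (2 ^ (k + 1))).filter Nat.Prime, (1 : ℝ) / 2 ^ k := by
        refine Finset.sum_le_sum fun p hp => ?_
        refine one_div_le_one_div_of_le (by positivity) ?_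
        exact_mod_cast (mem_Ioc.1 (mem_filter.1 hp).1).1.le
    _ = (((Ioc (2 ^ k) (2 ^ (k + 1))).filter Nat.Prime).card : ℝ) * (1 / 2 ^ k) := by
        rw [Finset.sum_const, nsmul_eq_mul]
    _ ≤ (4 * 2 ^ k / k) * (1 / 2 ^ k) :=
        mul_le_mul_of_nonneg_right (card_dyadic hk) (by positivity)
    _ = 4 / k := by
        have h5 : (0 : ℝ) < k := by exact_mod_cast hk
        field_simp

theorem sum_primes (K : ℕ) (hK : 1 ≤ K) :
    ∑ p ∈ (range (2 ^ K + 1)).filter Nat.Prime, (1 : ℝ) / p ≤ 1 / 2 + ∑ k ∈ range (K - 1), 4 / ((k : ℝ) + 1) := by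
  induction K, hK using Nat.le_induction with
  | base =>
    have h1 : (range (2 ^ 1 + 1)).filter Nat.Prime = {2} := by decide
    rw [h1]
    simp
  | succ K hK ih =>
    have h1 : (range (2 ^ (K + 1) + 1)).filter Nat.Prime =
        (range (2 ^ K + 1)).filter Nat.Prime ∪ (Ioc (2 ^ K) (2 ^ (K + 1))).filter Nat.Prime := by
      ext p
      rw [mem_union, mem_filter, mem_filter, mem_filter, mem_range, mem_range, mem_Ioc]
      have h2 : 2 ^ K ≤ 2 ^ (K + 1) := Nat.pow_le_pow_right (by norm_num) (by omega)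
      constructor
      · rintro ⟨h3, h4⟩
        by_cases h5 : p < 2 ^ K + 1
        · exact Or.inl ⟨h5, h4⟩
        · exact Or.inr ⟨⟨by omega, by omega⟩, h4⟩
      · rintro (⟨h3, h4⟩ | ⟨⟨h3, h4⟩, h5⟩)
        · exact ⟨by omega, h4⟩
        · exact ⟨by omega, h5⟩
    have h2 : Disjoint ((range (2 ^ K + 1)).filter Nat.Prime) ((Ioc (2 ^ K) (2 ^ (K + 1))).filter Nat.Prime) := by
      rw [Finset.disjoint_left]
      intro p hp hp'
      rw [mem_filter, mem_range] at hp
      rw [mem_filter, mem_Ioc] at hp'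
      omega
    rw [h1, Finset.sum_union h2]
    have h3 := sum_dyadic hK
    have h4 : K + 1 - 1 = (K - 1) + 1 := by omega
    rw [h4, Finset.sum_range_succ]
    have h5 : ((K - 1 : ℕ) : ℝ) + 1 = K := by
      rw [Nat.cast_sub hK]
      push_cast
      ring
    rw [h5]
    linarith

theorem sum_primes_log (K : ℕ) (hK : 1 ≤ K) :
    ∑ p ∈ (range (2 ^ K + 1)).filter Nat.Prime, (1 : ℝ) / p ≤ 9 / 2 + 4 * Real.log K := by
  refine (sum_primes K hK).trans ?_
  have h1 : ∑ k ∈ range (K - 1), 4 / ((k : ℝ) + 1) ≤ 4 * ∑ k ∈ range K, ((k : ℝ) + 1)⁻¹ := by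
    rw [Finset.mul_sum]
    have h0 : ∑ k ∈ range (K - 1), 4 / ((k : ℝ) + 1) = ∑ k ∈ range (K - 1), 4 * ((k : ℝ) + 1)⁻¹ :=
      Finset.sum_congr rfl fun k _ => div_eq_mul_inv _ _
    rw [h0]
    refine Finset.sum_le_sum_of_subset_of_nonneg ?_ fun _ _ _ => by positivity
    intro k hk
    rw [mem_range] at hk ⊢
    omega
  have h2 := harmonic_le_one_add_log K
  have h3 : ((harmonic K : ℚ) : ℝ) = ∑ k ∈ range K, ((k : ℝ) + 1)⁻¹ := by
    unfold harmonic
    push_cast
    rfl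
  rw [h3] at h2
  linarith

theorem exp_neg_le {x : ℝ} (h0 : 0 ≤ x) (h1 : x ≤ 1 / 2) : Real.exp (-(2 * x)) ≤ 1 - x := by
  have h2 : 1 + 2 * x ≤ Real.exp (2 * x) := by
    have := Real.add_one_le_exp (2 * x)
    linarith
  rw [Real.exp_neg, inv_le_comm₀ (Real.exp_pos _) (by linarith)]
  refine le_trans ?_ h2
  rw [inv_le_iff_one_le_mul₀ (by linarith)]
  nlinarith

/-- a lower bound of the Mertens product -/
theorem prod_ge {z : ℝ} (hz : 2 ≤ z) :
    Real.exp (-9) / (3 * Real.log z) ^ 8 ≤ ∏ p ∈ Pz z, (1 - 1 / (p : ℝ)) := by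
  classical
  have hl2 : 0 < Real.log 2 := Real.log_pos one_lt_two
  have hl2' := Real.log_two_gt_d9
  have hlz : Real.log 2 ≤ Real.log z := Real.log_le_log (by norm_num) hz
  set K : ℕ := ⌊Real.log z / Real.log 2⌋₊ + 1 with hK
  have h1 : Real.log z < K * Real.log 2 := by
    have h2 := Nat.lt_floor_add_one (Real.log z / Real.log 2)
    rw [div_lt_iff₀ hl2] at h2
    rw [hK]
    push_cast
    exact h2
  have hK3 : (K : ℝ) ≤ 3 * Real.log z := by
    have h2 : (⌊Real.log z / Real.log 2⌋₊ : ℝ) ≤ Real.log z / Real.log 2 :=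
      Nat.floor_le (div_nonneg (hl2.le.trans hlz) hl2.le)
    have h3 : (1 : ℝ) ≤ Real.log z / Real.log 2 := by
      rw [le_div_iff₀ hl2, one_mul]
      exact hlz
    have h4 : Real.log z / Real.log 2 ≤ (3 / 2) * Real.log z := by
      rw [div_le_iff₀ hl2]
      nlinarith
    rw [hK]
    push_cast
    linarith
  have hz2 : z < 2 ^ K := by
    have h2 : Real.log z < Real.log ((2 : ℝ) ^ K) := by
      rw [Real.log_pow]
      exact h1
    exact (Real.log_lt_log_iff (by linarith) (by positivity)).1 h2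
  have hsub : Pz z ⊆ (range (2 ^ K + 1)).filter Nat.Prime := by
    intro p hp
    rw [mem_Pz (by linarith)] at hp
    rw [mem_filter, mem_range]
    refine ⟨?_, hp.1⟩
    have h2 : (p : ℝ) < 2 ^ K := lt_of_le_of_lt hp.2 hz2
    have h3 : p < 2 ^ K := by exact_mod_cast h2
    omega
  have hsum : ∑ p ∈ Pz z, (1 : ℝ) / p ≤ 9 / 2 + 4 * Real.log K :=
    (Finset.sum_le_sum_of_subset_of_nonneg hsub fun _ _ _ => by positivity).trans
      (sum_primes_log K (by omega))
  have hprod : Real.exp (-(2 * ∑ p ∈ Pz z, (1 : ℝ) / p)) ≤ ∏ p ∈ Pz z, (1 - 1 / (p : ℝ)) := by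
    rw [Finset.mul_sum, ← Finset.sum_neg_distrib, Real.exp_sum]
    refine Finset.prod_le_prod (fun _ _ => (Real.exp_pos _).le) fun p hp => ?_
    have h2 := ((mem_Pz (by linarith)).1 hp).1.two_le
    refine exp_neg_le (by positivity) ?_
    exact one_div_le_one_div_of_le (by norm_num) (by exact_mod_cast h2)
  refine le_trans ?_ hprod
  have hKpos : (0 : ℝ) < K := by
    rw [hK]
    positivity
  have h2 : Real.exp (-(2 * (9 / 2 + 4 * Real.log K))) ≤ Real.exp (-(2 * ∑ p ∈ Pz z, (1 : ℝ) / p)) :=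
    Real.exp_le_exp.2 (by linarith)
  refine le_trans ?_ h2
  have h3 : Real.exp (-(2 * (9 / 2 + 4 * Real.log K))) = Real.exp (-9) / (K : ℝ) ^ 8 := by
    have h4 : -(2 * (9 / 2 + 4 * Real.log K)) = -9 - Real.log ((K : ℝ) ^ 8) := by
      rw [Real.log_pow]
      push_cast
      ring
    rw [h4, Real.exp_sub, Real.exp_log (by positivity)]
  rw [h3]
  exact div_le_div_of_nonneg_left (Real.exp_pos _).le (by positivity)
    (pow_le_pow_left₀ hKpos.le hK3 8)

/-- the rough squarefree numbers -/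
noncomputable def SR (z : ℝ) (Y : ℕ) : Finset ℕ := (Rg Y (Pz z)).filter fun n => Squarefree n

theorem mem_SR {z : ℝ} (hz : 0 ≤ z) {Y n : ℕ} :
    n ∈ SR z Y ↔ (1 ≤ n ∧ n ≤ Y) ∧ (∀ p : ℕ, p.Prime → p ∣ n → z < p) ∧ Squarefree n := by
  unfold SR
  rw [mem_filter, mem_Rg]
  constructor
  · rintro ⟨⟨h1, h2⟩, h3⟩
    refine ⟨h1, fun p hp hpn => ?_, h3⟩
    by_contra hc
    push Not at hc
    exact h2 p ((mem_Pz hz).2 ⟨hp, hc⟩) hpn
  · rintro ⟨h1, h2, h3⟩
    refine ⟨⟨h1, fun p hp hpn => ?_⟩, h3⟩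
    have h4 := (mem_Pz hz).1 hp
    exact absurd (h2 p h4.1 hpn) (not_lt_of_ge h4.2)

/-- the sum of the reciprocals of the rough squarefree numbers `≤ Y` -/
theorem sum_SR {z : ℝ} (hz : 2 ≤ z) (Y : ℕ) :
    Real.log (Y + 1) * (Real.exp (-9) / (3 * Real.log z) ^ 8) ≤ 2 * ∑ n ∈ SR z Y, (1 : ℝ) / n := by
  have h1 := T_squarefree hz Y
  have h2 := prod_le_T Y (Pz z) fun p hp => ((mem_Pz (by linarith)).1 hp).1.two_le
  have h3 : Real.log (Y + 1) ≤ T Y ∅ := by
    have h4 := log_add_one_le_harmonic Y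
    have h5 : ((harmonic Y : ℚ) : ℝ) = T Y ∅ := by
      rw [harmonic_eq_sum_Icc]
      unfold T Rg
      push_cast
      refine Finset.sum_congr ?_ fun n _ => (one_div _).symm
      ext n
      rw [mem_filter]
      exact ⟨fun h => ⟨h, fun p hp => absurd hp (Finset.notMem_empty p)⟩, fun h => h.1⟩
    rw [← h5]
    exact_mod_cast h4
  have h4 := prod_ge hz
  have h5 : (0 : ℝ) ≤ Real.exp (-9) / (3 * Real.log z) ^ 8 := by
    have := Real.log_nonneg (show (1 : ℝ) ≤ z by linarith)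
    positivity
  calc Real.log (Y + 1) * (Real.exp (-9) / (3 * Real.log z) ^ 8)
      ≤ T Y ∅ * ∏ p ∈ Pz z, (1 - 1 / (p : ℝ)) := mul_le_mul h3 h4 h5 (T_nonneg _ _)
    _ = (∏ p ∈ Pz z, (1 - 1 / (p : ℝ))) * T Y ∅ := mul_comm _ _
    _ ≤ T Y (Pz z) := h2
    _ ≤ _ := h1

theorem sum_pow_le (m n : ℕ) (hm : 1 ≤ m) : ∑ k ∈ Ioc m (m + n), 1 / ((k : ℝ) * Real.sqrt k) ≤
    2 / Real.sqrt m - 2 / Real.sqrt ((m + n : ℕ) : ℝ) := by
  induction n with
  | zero => simp
  | succ n ih =>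
    have h1 : Ioc m (m + (n + 1)) = insert (m + n + 1) (Ioc m (m + n)) := by
      ext k
      rw [mem_insert, mem_Ioc, mem_Ioc]
      omega
    rw [h1, Finset.sum_insert (by rw [mem_Ioc]; omega)]
    have h2 : (m + (n + 1) : ℕ) = m + n + 1 := by ring
    rw [h2]
    set a : ℝ := Real.sqrt ((m + n : ℕ) : ℝ) with ha
    set b : ℝ := Real.sqrt ((m + n + 1 : ℕ) : ℝ) with hb
    have ha2 : a ^ 2 = ((m + n : ℕ) : ℝ) := Real.sq_sqrt (Nat.cast_nonneg _)
    have hb2 : b ^ 2 = ((m + n + 1 : ℕ) : ℝ) := Real.sq_sqrt (Nat.cast_nonneg _)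
    have hapos : 0 < a := Real.sqrt_pos.2 (by exact_mod_cast (show 0 < m + n by omega))
    have hbpos : 0 < b := Real.sqrt_pos.2 (by exact_mod_cast (show 0 < m + n + 1 by omega))
    have hab : a ≤ b := Real.sqrt_le_sqrt (by exact_mod_cast (show m + n ≤ m + n + 1 by omega))
    have hab2 : b ^ 2 = a ^ 2 + 1 := by
      rw [ha2, hb2]
      push_cast
      ring
    rw [← hb2]
    have h3 : 1 / (b ^ 2 * b) ≤ 2 / a - 2 / b := by
      have h4 : 2 / a - 2 / b = 2 * (b - a) / (a * b) := by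
        field_simp
      rw [h4, div_le_div_iff₀ (by positivity) (by positivity)]
      have h5 : (b - a) * (b + a) = 1 := by nlinarith
      nlinarith [mul_pos hapos hbpos, mul_nonneg (sub_nonneg.2 hab) hapos.le, mul_nonneg (sub_nonneg.2 hab) hbpos.le]
    linarith

/-- the numbers with a large sum over the prime factors are rare -/
theorem card_bad {z : ℝ} (hz : 2 ≤ z) (Z : ℕ) :
    (((SR z Z).filter fun n : ℕ => 1 < ∑ p ∈ n.primeFactors, 1 / Real.sqrt (p : ℝ)).card : ℝ) ≤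
      3 * Z / Real.sqrt z := by
  classical
  set m : ℕ := ⌊z⌋₊ with hm
  have hm2 : 2 ≤ m := Nat.le_floor (by exact_mod_cast hz)
  have h1 : (((SR z Z).filter fun n : ℕ => 1 < ∑ p ∈ n.primeFactors, 1 / Real.sqrt (p : ℝ)).card : ℝ) ≤
      ∑ n ∈ SR z Z, ∑ p ∈ Ioc m (m + Z), if p ∣ n then 1 / Real.sqrt (p : ℝ) else 0 := by
    rw [Finset.card_eq_sum_ones]
    push_cast
    refine le_trans (Finset.sum_le_sum (g := fun n : ℕ => ∑ p ∈ Ioc m (m + Z), if p ∣ n then 1 / Real.sqrt (p : ℝ) else 0)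
      fun n hn => ?_) (Finset.sum_le_sum_of_subset_of_nonneg (Finset.filter_subset _ _) fun n _ _ =>
        Finset.sum_nonneg fun p _ => ?_)
    · rw [mem_filter] at hn
      have h2 := (mem_SR (by linarith)).1 hn.1
      refine le_trans hn.2.le ?_
      rw [← Finset.sum_filter]
      refine Finset.sum_le_sum_of_subset_of_nonneg ?_ fun _ _ _ => by positivity
      intro p hp
      have h3 := Nat.mem_primeFactors.1 hp
      have h4 := h2.2.1 p h3.1 h3.2.1
      have h5 := Nat.le_of_dvd (by omega) h3.2.1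
      refine mem_filter.2 ⟨mem_Ioc.2 ⟨?_, by omega⟩, h3.2.1⟩
      exact (Nat.floor_lt (by linarith)).2 h4
    · split_ifs
      · positivity
      · exact le_rfl
  rw [Finset.sum_comm] at h1
  have h2 : ∀ p ∈ Ioc m (m + Z), ∑ n ∈ SR z Z, (if p ∣ n then 1 / Real.sqrt (p : ℝ) else 0) ≤
      Z * (1 / ((p : ℝ) * Real.sqrt p)) := by
    intro p hp
    have hp1 := (mem_Ioc.1 hp).1
    have hppos : (0 : ℝ) < p := by exact_mod_cast (show 0 < p by omega)
    rw [← Finset.sum_filter, Finset.sum_const, nsmul_eq_mul]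
    have h3 : (((SR z Z).filter fun n => p ∣ n).card : ℝ) ≤ Z / p := by
      have h4 : ((SR z Z).filter fun n => p ∣ n).card ≤ Z / p := by
        rw [← Nat.Ioc_filter_dvd_card_eq_div Z p]
        refine Finset.card_le_card fun n hn => ?_
        rw [mem_filter] at hn
        have h5 := (mem_SR (by linarith)).1 hn.1
        exact mem_filter.2 ⟨mem_Ioc.2 ⟨by omega, h5.1.2⟩, hn.2⟩
      exact le_trans (by exact_mod_cast h4) Nat.cast_div_le
    calc (((SR z Z).filter fun n => p ∣ n).card : ℝ) * (1 / Real.sqrt p) ≤ (Z / p) * (1 / Real.sqrt p) :=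
          mul_le_mul_of_nonneg_right h3 (by positivity)
      _ = Z * (1 / ((p : ℝ) * Real.sqrt p)) := by
          rw [div_mul_div_comm, mul_one, mul_one_div]
  have h3 := h1.trans (Finset.sum_le_sum h2)
  rw [← Finset.mul_sum] at h3
  have h4 := sum_pow_le m Z (by omega)
  have h5 : (0 : ℝ) ≤ 2 / Real.sqrt ((m + Z : ℕ) : ℝ) := by positivity
  have h6 : 2 / Real.sqrt m ≤ 3 / Real.sqrt z := by
    have h7 : z ≤ 2 * m := by
      have h8 := Nat.lt_floor_add_one z
      have h9 : (2 : ℝ) ≤ m := by exact_mod_cast hm2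
      rw [← hm] at h8
      linarith
    have hmpos : (0 : ℝ) < m := by exact_mod_cast (show 0 < m by omega)
    have h8 : 0 < Real.sqrt m := Real.sqrt_pos.2 hmpos
    have h9 : 0 < Real.sqrt z := Real.sqrt_pos.2 (by linarith)
    rw [div_le_div_iff₀ h8 h9]
    have h10 : (2 * Real.sqrt z) ^ 2 ≤ (3 * Real.sqrt m) ^ 2 := by
      rw [mul_pow, mul_pow, Real.sq_sqrt (by linarith), Real.sq_sqrt hmpos.le]
      linarith
    exact (pow_le_pow_iff_left₀ (by positivity) (by positivity) two_ne_zero).1 h10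
  calc (((SR z Z).filter fun n : ℕ => 1 < ∑ p ∈ n.primeFactors, 1 / Real.sqrt (p : ℝ)).card : ℝ)
      ≤ Z * ∑ k ∈ Ioc m (m + Z), 1 / ((k : ℝ) * Real.sqrt k) := h3
    _ ≤ Z * (3 / Real.sqrt z) := mul_le_mul_of_nonneg_left (by linarith) (Nat.cast_nonneg _)
    _ = 3 * Z / Real.sqrt z := by ring

/-- many rough squarefree numbers -/
theorem card_SR {c : ℝ} (hc : 0 < c) (hp : ∀ X : ℕ, 2 ≤ X →
    c * X / Real.log X ≤ (((Finset.Ioc X (4 * X)).filter Nat.Prime).card : ℝ)) {z : ℝ} (hz : 2 ≤ z) {X : ℕ}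
    (hX : z ^ 2 ≤ X) : (c / 8) * X * (Real.exp (-9) / (3 * Real.log z) ^ 8) ≤ ((SR z (4 * X)).card : ℝ) := by
  classical
  set Y : ℕ := Nat.sqrt X with hY
  have hX4 : 4 ≤ X := by
    have h1 : (4 : ℝ) ≤ X := by nlinarith
    exact_mod_cast h1
  have hY2 : 2 ≤ Y := Nat.le_sqrt.2 (by omega)
  have hfac : ∀ r ∈ SR z Y, ∀ p, X / r < p → r < p ∧ X < p * r ∧ 1 ≤ r ∧ 2 ≤ X / r := by
    intro r hr p hrp
    have h1 := (mem_SR (by linarith)).1 hr
    have h2 : r * r ≤ X := (Nat.mul_le_mul h1.1.2 h1.1.2).trans (Nat.sqrt_le X)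
    have h3 : r ≤ X / r := (Nat.le_div_iff_mul_le (by omega)).2 h2
    have h4 : 2 ≤ X / r := by
      have h5 : Y ≤ X / Y := (Nat.le_div_iff_mul_le (by omega)).2 (Nat.sqrt_le X)
      have h6 : X / Y ≤ X / r := Nat.div_le_div_left h1.1.2 (by omega)
      omega
    exact ⟨by omega, (Nat.div_lt_iff_lt_mul (by omega)).1 hrp, h1.1.1, h4⟩
  have h1 : ((SR z Y).sigma fun r => (Ioc (X / r) (4 * (X / r))).filter Nat.Prime).card ≤ (SR z (4 * X)).card := by
    refine Finset.card_le_card_of_injOn (fun x => x.1 * x.2) ?_ ?_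
    · rintro ⟨r, p⟩ hx
      rw [mem_coe, mem_sigma, mem_filter, mem_Ioc] at hx
      dsimp only at hx
      obtain ⟨hr, ⟨hp1, hp2⟩, hpp⟩ := hx
      obtain ⟨h2, h3, h4, h5⟩ := hfac r hr p hp1
      have h6 := (mem_SR (by linarith)).1 hr
      rw [mem_coe]
      show r * p ∈ SR z (4 * X)
      refine (mem_SR (by linarith)).2 ⟨⟨Nat.mul_pos h4 hpp.pos, ?_⟩, fun q hq hqd => ?_, ?_⟩
      · calc r * p ≤ r * (4 * (X / r)) := Nat.mul_le_mul_left _ hp2
          _ = 4 * (r * (X / r)) := by ring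
          _ ≤ 4 * X := Nat.mul_le_mul_left _ (Nat.mul_div_le X r)
      · rcases (Nat.Prime.dvd_mul hq).1 hqd with h7 | h7
        · exact h6.2.1 q hq h7
        · rw [(Nat.prime_dvd_prime_iff_eq hq hpp).1 h7]
          by_contra hc'
          push Not at hc'
          have h8 : (p : ℝ) ^ 2 ≤ X := le_trans (pow_le_pow_left₀ (Nat.cast_nonneg _) hc' 2) hX
          have h9 : p ^ 2 ≤ X := by exact_mod_cast h8
          have h10 : r ^ 2 ≤ X := by
            rw [pow_two]
            exact (Nat.mul_le_mul h6.1.2 h6.1.2).trans (Nat.sqrt_le X)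
          have h11 : (p * r) ^ 2 ≤ X ^ 2 := by
            rw [mul_pow, pow_two X]
            exact Nat.mul_le_mul h9 h10
          have h12 : p * r ≤ X := (Nat.pow_le_pow_iff_left two_ne_zero).1 h11
          omega
      · have h7 : Nat.Coprime r p := by
          refine ((Nat.Prime.coprime_iff_not_dvd hpp).2 fun h8 => ?_).symm
          have := Nat.le_of_dvd h4 h8
          omega
        exact (Nat.squarefree_mul h7).2 ⟨h6.2.2, hpp.squarefree⟩
    · rintro ⟨r, p⟩ hx ⟨r', p'⟩ hx' heq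
      rw [mem_coe, mem_sigma, mem_filter, mem_Ioc] at hx hx'
      dsimp only at hx hx'
      obtain ⟨hr, ⟨hp1, hp2⟩, hpp⟩ := hx
      obtain ⟨hr', ⟨hp1', hp2'⟩, hpp'⟩ := hx'
      have heq' : r * p = r' * p' := heq
      obtain ⟨h2, _, h4, _⟩ := hfac r hr p hp1
      obtain ⟨h2', _, h4', _⟩ := hfac r' hr' p' hp1'
      have h5 : p = p' := by
        by_contra hne
        have h6 : p ∣ r' := by
          have h7 : p ∣ r' * p' := heq' ▸ Dvd.intro_left _ rfl
          rcases (Nat.Prime.dvd_mul hpp).1 h7 with h8 | h8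
          · exact h8
          · exact absurd ((Nat.prime_dvd_prime_iff_eq hpp hpp').1 h8) hne
        have h6' : p' ∣ r := by
          have h7 : p' ∣ r * p := heq' ▸ Dvd.intro_left _ rfl
          rcases (Nat.Prime.dvd_mul hpp').1 h7 with h8 | h8
          · exact h8
          · exact absurd ((Nat.prime_dvd_prime_iff_eq hpp' hpp).1 h8).symm hne
        have h7 := Nat.le_of_dvd h4' h6
        have h8 := Nat.le_of_dvd h4 h6'
        omega
      subst h5
      have h6 : r = r' := Nat.eq_of_mul_eq_mul_right hpp.pos heq'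
      subst h6
      rfl
  rw [Finset.card_sigma] at h1
  have hlX : 0 < Real.log X := Real.log_pos (by exact_mod_cast (show 1 < X by omega))
  have h2 : ∀ r ∈ SR z Y, c * X / (2 * Real.log X) * (1 / r) ≤
      (((Ioc (X / r) (4 * (X / r))).filter Nat.Prime).card : ℝ) := by
    intro r hr
    obtain ⟨_, _, h4, h5⟩ := hfac r hr (X / r + 1) (by omega)
    refine le_trans ?_ (hp (X / r) h5)
    have h6 : (X : ℝ) ≤ 2 * r * ((X / r : ℕ) : ℝ) := by
      have h7 : X < r * (X / r + 1) := Nat.lt_mul_div_succ X (by omega)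
      have h8 : r * (X / r + 1) ≤ 2 * r * (X / r) := by
        have : r * (X / r + 1) ≤ r * (2 * (X / r)) := Nat.mul_le_mul_left _ (by omega)
        calc r * (X / r + 1) ≤ r * (2 * (X / r)) := this
          _ = 2 * r * (X / r) := by ring
      exact_mod_cast h7.le.trans h8
    have h7 : 0 < Real.log ((X / r : ℕ) : ℝ) := Real.log_pos (by exact_mod_cast (show 1 < X / r by omega))
    have h8 : Real.log ((X / r : ℕ) : ℝ) ≤ Real.log X :=
      Real.log_le_log (by exact_mod_cast (show 0 < X / r by omega)) (by exact_mod_cast Nat.div_le_self X r)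
    have hr0 : (0 : ℝ) < r := by exact_mod_cast h4
    calc c * X / (2 * Real.log X) * (1 / r) = c * (X / (2 * r)) / Real.log X := by
          field_simp
      _ ≤ c * ((X / r : ℕ) : ℝ) / Real.log X := by
          refine div_le_div_of_nonneg_right (mul_le_mul_of_nonneg_left ?_ hc.le) hlX.le
          rw [div_le_iff₀ (by positivity)]
          linarith
      _ ≤ c * ((X / r : ℕ) : ℝ) / Real.log ((X / r : ℕ) : ℝ) :=
          div_le_div_of_nonneg_left (by positivity) h7 h8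
  have h3 := Finset.sum_le_sum h2
  rw [← Finset.mul_sum] at h3
  have h4 : (∑ r ∈ SR z Y, (((Ioc (X / r) (4 * (X / r))).filter Nat.Prime).card : ℝ)) ≤ ((SR z (4 * X)).card : ℝ) := by
    exact_mod_cast h1
  have h5 := sum_SR hz Y
  have h6 : Real.log X / 2 ≤ Real.log (Y + 1) := by
    have h7 : (X : ℝ) ≤ ((Y : ℝ) + 1) ^ 2 := by
      have h8 := Nat.lt_succ_sqrt X
      have h9 : X ≤ (Y + 1) ^ 2 := by
        rw [pow_two]
        exact h8.le
      exact_mod_cast h9
    have h8 := Real.log_le_log (by exact_mod_cast (show 0 < X by omega)) h7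
    rw [Real.log_pow] at h8
    push_cast at h8
    linarith
  set E : ℝ := Real.exp (-9) / (3 * Real.log z) ^ 8 with hE
  have hE0 : 0 ≤ E := by
    have := Real.log_nonneg (show (1 : ℝ) ≤ z by linarith)
    positivity
  have h7 : Real.log X / 2 * E ≤ 2 * ∑ n ∈ SR z Y, (1 : ℝ) / n :=
    (mul_le_mul_of_nonneg_right h6 hE0).trans h5
  have h8 : (c / 8) * X * E = c * X / (2 * Real.log X) * (Real.log X / 2 * E / 2) := by
    field_simp
    ring
  rw [h8]
  refine le_trans (mul_le_mul_of_nonneg_left ?_ (by positivity)) (h3.trans h4)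
  linarith

end Rough

open Rough Pool.Agent.Helper64.AS

theorem rough (h : S_primes) : S_rough := by
  classical
  obtain ⟨c, hc, hp⟩ := h
  set c₁ : ℝ := c / 16 * (Real.exp (-9) / 3 ^ 8) with hc₁
  have hc₁pos : 0 < c₁ := by positivity
  -- the threshold
  have h1 : ∀ᶠ z : ℝ in Filter.atTop, Real.log z ^ 8 * 12 ≤ c₁ * Real.sqrt z := by
    have h2 := (Real.isLittleO_pow_log_id_atTop (n := 16)).bound (show 0 < (c₁ / 12) ^ 2 by positivity)
    filter_upwards [h2, Filter.eventually_ge_atTop 1] with z hz hz1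
    rw [Real.norm_eq_abs, Real.norm_eq_abs, id, abs_of_nonneg (by linarith : (0 : ℝ) ≤ z)] at hz
    have hl : 0 ≤ Real.log z := Real.log_nonneg hz1
    rw [abs_of_nonneg (by positivity)] at hz
    have h3 : (Real.log z ^ 8) ^ 2 ≤ (c₁ / 12 * Real.sqrt z) ^ 2 := by
      rw [mul_pow, Real.sq_sqrt (by linarith), ← pow_mul]
      exact hz
    have h4 := (pow_le_pow_iff_left₀ (by positivity) (by positivity) two_ne_zero).1 h3
    linarith
  obtain ⟨z₁, hz₁⟩ := Filter.eventually_atTop.1 h1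
  refine ⟨c₁, max 2 z₁, 8, hc₁pos, le_max_left _ _, ?_⟩
  intro z X hz hX
  have hz2 : 2 ≤ z := (le_max_left _ _).trans hz
  have hlz : 0 < Real.log z := Real.log_pos (by linarith)
  have h2 := hz₁ z ((le_max_right _ _).trans hz)
  have h3 := card_SR hc hp hz2 hX
  have h4 := card_bad hz2 (4 * X)
  set B := SR z (4 * X) with hB
  set D := B.filter (fun n : ℕ => 1 < ∑ p ∈ n.primeFactors, 1 / Real.sqrt (p : ℝ)) with hD
  have hz0 : (0 : ℝ) ≤ z := by linarith
  refine ⟨(B \ D).image Nat.primeFactors, ?_, ?_⟩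
  · intro A hA
    obtain ⟨n, hn, rfl⟩ := mem_image.1 hA
    rw [mem_sdiff] at hn
    have h5 := (mem_SR hz0).1 hn.1
    refine ⟨fun p hpn => ?_, ?_, ?_⟩
    · have h6 := Nat.mem_primeFactors.1 hpn
      exact ⟨h6.1, h5.2.1 p h6.1 h6.2.1⟩
    · rw [Nat.prod_primeFactors_of_squarefree h5.2.2]
      exact h5.1.2
    · by_contra h6
      push Not at h6
      exact hn.2 (mem_filter.2 ⟨hn.1, h6⟩)
  · have h5 : ((B \ D).image Nat.primeFactors).card = (B \ D).card := by
      refine Finset.card_image_of_injOn fun a ha b hb hab => ?_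
      rw [mem_coe, mem_sdiff] at ha hb
      have h6 := ((mem_SR hz0).1 ha.1).2.2
      have h7 := ((mem_SR hz0).1 hb.1).2.2
      have hab' : a.primeFactors = b.primeFactors := hab
      rw [← Nat.prod_primeFactors_of_squarefree h6, ← Nat.prod_primeFactors_of_squarefree h7, hab']
    rw [h5]
    have h6 : (B \ D).card + D.card = B.card := Finset.card_sdiff_add_card_eq_card (Finset.filter_subset _ _)
    have h7 : ((B \ D).card : ℝ) = B.card - D.card := by
      rw [← h6]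
      push_cast
      ring
    rw [h7]
    have hsz : 0 < Real.sqrt z := Real.sqrt_pos.2 (by linarith)
    have h8 : 3 * ((4 * X : ℕ) : ℝ) / Real.sqrt z ≤ c₁ * X / Real.log z ^ 8 := by
      rw [div_le_div_iff₀ hsz (by positivity)]
      push_cast
      have h9 : (0 : ℝ) ≤ X := Nat.cast_nonneg _
      nlinarith
    have h9 : (c / 8) * X * (Real.exp (-9) / (3 * Real.log z) ^ 8) = 2 * (c₁ * X / Real.log z ^ 8) := by
      rw [hc₁, mul_pow]
      field_simp
      ring
    rw [h9] at h3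
    linarith

end Pool.Agent.Helper71.AS
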