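import Pool.Agent.Helper64.AS.Defs

/-!
# The top levels (module `LStop` of the project `MP_65a63f_AS`)
-/

set_option autoImplicit false

open Finset MeasureTheory

namespace Pool.Agent.Helper71.AS

namespace LSt

open Pool.Agent.Helper64.AS

/-! ### The sieve functions for `ε = 1` -/

theorem phi_sq (hpsi : S_psi) {A : Finset ℕ} (hA : ∀ p ∈ A, p.Prime) (l : ℤ) : phi 1 A l ^ 2 = 1 := by
  unfold phi
  rw [← Finset.prod_pow]
  exact Finset.prod_eq_one fun p hp => hpsi.2.1 p l (hA p hp)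

theorem phi_mul (hpsi : S_psi) {A A' : Finset ℕ} (hA : ∀ p ∈ A, p.Prime) (l : ℤ) :
    phi 1 A l * phi 1 A' l = phi 1 (symmDiff A A') l := by
  classical
  have h1 : phi 1 A l = phi 1 (A \ A') l * phi 1 (A ∩ A') l := by
    unfold phi
    rw [← Finset.prod_union (Finset.disjoint_sdiff_inter A A'), Finset.sdiff_union_inter]
  have h2 : phi 1 A' l = phi 1 (A' \ A) l * phi 1 (A ∩ A') l := by
    unfold phi
    rw [Finset.inter_comm, ← Finset.prod_union (Finset.disjoint_sdiff_inter A' A), Finset.sdiff_union_inter]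
  have h3 : phi 1 (symmDiff A A') l = phi 1 (A \ A') l * phi 1 (A' \ A) l := by
    unfold phi
    rw [← Finset.prod_union]
    · rfl
    · rw [Finset.disjoint_left]
      intro p hp hp'
      exact (mem_sdiff.1 hp').2 (mem_sdiff.1 hp).1
  have h4 : phi 1 (A ∩ A') l ^ 2 = 1 := phi_sq hpsi (fun p hp => hA p (mem_inter.1 hp).1) l
  rw [h1, h2, h3]
  calc phi 1 (A \ A') l * phi 1 (A ∩ A') l * (phi 1 (A' \ A) l * phi 1 (A ∩ A') l)
      = phi 1 (A \ A') l * phi 1 (A' \ A) l * phi 1 (A ∩ A') l ^ 2 := by ring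
    _ = _ := by rw [h4, mul_one]

theorem phi_square (hpsi : S_psi) {A : Finset ℕ} (hA : ∀ p ∈ A, p.Prime) (n : ℤ) : phi 1 A (n ^ 2) = 1 := by
  unfold phi
  exact Finset.prod_eq_one fun p hp => hpsi.2.2.1 p n (hA p hp)

/-! ### From boxes to `bx` -/

theorem box_subset (r : ℕ) (b : Fin (r + 1) → ℝ) {N : ℝ} (hN : 0 ≤ N) :
    box r b N ⊆ bx r (Finset.Icc ⌈b 0⌉ ⌊b 0 + N⌋) (fun l => ⌈b l.succ⌉) ⌊N⌋₊ := by
  unfold Pool.Agent.Helper64.AS.box bx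
  refine Finset.product_subset_product (Finset.Subset.refl _) ?_
  refine Fintype.piFinset_subset _ _ fun l => ?_
  refine Finset.Icc_subset_Icc le_rfl ?_
  have h1 : ((⌊N⌋₊ : ℕ) : ℤ) = ⌊N⌋ := Int.natCast_floor_eq_floor hN
  rw [h1]
  have h2 : ⌊b l.succ + N⌋ ≤ ⌊(⌈b l.succ⌉ : ℝ) + N⌋ := Int.floor_le_floor (by
    have := Int.le_ceil (b l.succ)
    linarith)
  rw [Int.floor_intCast_add] at h2
  exact h2

theorem FF_ext {r : ℕ} {S S' : Finset (ℤ × (Fin r → ℤ))} (h : S ⊆ S') (a : ℤ × (Fin r → ℤ) → ℂ) (t : ℝ)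
    (x : Fin r → ℝ) : FF r S' (fun ξ => if ξ ∈ S then a ξ else 0) t x = FF r S a t x := by
  classical
  unfold FF
  rw [← Finset.sum_subset h]
  · refine Finset.sum_congr rfl fun ξ hξ => ?_
    beta_reduce
    rw [if_pos hξ]
  · intro ξ _ hξ
    beta_reduce
    rw [if_neg hξ, zero_mul]

theorem sum_ext {r : ℕ} {S S' : Finset (ℤ × (Fin r → ℤ))} (h : S ⊆ S') (a : ℤ × (Fin r → ℤ) → ℂ) :
    ∑ ξ ∈ S', ‖(if ξ ∈ S then a ξ else 0 : ℂ)‖ ^ 2 = ∑ ξ ∈ S, ‖a ξ‖ ^ 2 := by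
  classical
  rw [← Finset.sum_subset h]
  · refine Finset.sum_congr rfl fun ξ hξ => ?_
    rw [if_pos hξ]
  · intro ξ _ hξ
    rw [if_neg hξ, norm_zero, zero_pow two_ne_zero]

/-- the least square -/
theorem exists_k₀ (r : ℕ) (b₀ N : ℝ) (hN : 0 ≤ N) (M L : ℕ) (hL : (L : ℝ) ≤ N)
    (hM : (4 + 2 * (r : ℝ)) * ((|b₀| + N) * N) ≤ M) :
    ∃ k₀ : ℤ, ∀ n ∈ Finset.Icc ⌈b₀⌉ ⌊b₀ + N⌋, k₀ ≤ n ^ 2 ∧ 2 * (n ^ 2 - k₀ + r * (L : ℤ) ^ 2) ≤ M := by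
  rcases (Finset.Icc ⌈b₀⌉ ⌊b₀ + N⌋).eq_empty_or_nonempty with h | h
  · exact ⟨0, fun n hn => by rw [h] at hn; exact absurd hn (Finset.notMem_empty _)⟩
  · obtain ⟨m, hm, hmin⟩ := Finset.exists_min_image _ (fun n : ℤ => n ^ 2) h
    refine ⟨m ^ 2, fun n hn => ⟨hmin n hn, ?_⟩⟩
    have hbd : ∀ k ∈ Finset.Icc ⌈b₀⌉ ⌊b₀ + N⌋, b₀ ≤ (k : ℝ) ∧ (k : ℝ) ≤ b₀ + N := by
      intro k hk
      rw [Finset.mem_Icc] at hk
      exact ⟨Int.ceil_le.1 hk.1, Int.le_floor.1 hk.2⟩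
    obtain ⟨h1, h2⟩ := hbd n hn
    obtain ⟨h3, h4⟩ := hbd m hm
    have h5 := neg_abs_le b₀
    have h6 := le_abs_self b₀
    have h7 : (n : ℝ) ^ 2 - (m : ℝ) ^ 2 ≤ 2 * ((|b₀| + N) * N) := by
      have h8 : |(n : ℝ) - m| ≤ N := abs_le.2 ⟨by linarith, by linarith⟩
      have h9 : |(n : ℝ) + m| ≤ 2 * (|b₀| + N) := abs_le.2 ⟨by linarith, by linarith⟩
      calc (n : ℝ) ^ 2 - (m : ℝ) ^ 2 = ((n : ℝ) - m) * (n + m) := by ring
        _ ≤ |((n : ℝ) - m) * (n + m)| := le_abs_self _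
        _ = |(n : ℝ) - m| * |(n : ℝ) + m| := abs_mul _ _
        _ ≤ N * (2 * (|b₀| + N)) := mul_le_mul h8 h9 (abs_nonneg _) hN
        _ = _ := by ring
    have h8 : (L : ℝ) ^ 2 ≤ (|b₀| + N) * N := by
      have h9 := abs_nonneg b₀
      have h10 : (0 : ℝ) ≤ L := Nat.cast_nonneg _
      nlinarith
    have h9 : (0 : ℝ) ≤ r := Nat.cast_nonneg _
    have h10 : 2 * ((n : ℝ) ^ 2 - (m : ℝ) ^ 2 + r * (L : ℝ) ^ 2) ≤ M := by
      have h11 := mul_le_mul_of_nonneg_left h8 h9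
      nlinarith
    exact_mod_cast h10

/-- the parameters fit -/
theorem vol_le (hd : S_dual) (hpsi : S_psi) {r : ℕ} {Ct : ℝ}
    (htop : ∀ (M M' X D : ℕ) (z : ℝ) (k₀ : ℤ) (𝒜 : Finset (Finset ℕ))
      (t : ℝ) (x : Fin r → ℝ), 2 ≤ z → 1 ≤ M' → 1 ≤ X → 16 * X ^ 2 ≤ M → M' ≤ D →
      4 * X * M ≤ D ^ 2 →
      (∀ A ∈ 𝒜, (∀ p ∈ A, p.Prime ∧ z < p) ∧ (∏ p ∈ A, p) ≤ 4 * X ∧
        ∑ p ∈ A, 1 / Real.sqrt p ≤ 1) →
      ∑ A ∈ 𝒜, ∑ A' ∈ 𝒜.erase A, ‖KA r M M' k₀ 1 (symmDiff A A') t x‖ ≤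
        Ct * M * M' ^ r * (M * M' ^ r * X / Real.sqrt z +
          M * X * (Real.sqrt D) ^ r * (1 + Real.log D) + X ^ (r + 3)))
    {c z₀ : ℝ} {κ : ℕ} (hc : 0 < c) (hrough : ∀ (z : ℝ) (X : ℕ), z₀ ≤ z → z ^ 2 ≤ X →
      ∃ 𝒜 : Finset (Finset ℕ), (∀ A ∈ 𝒜, (∀ p ∈ A, p.Prime ∧ z < p) ∧ (∏ p ∈ A, p) ≤ 4 * X ∧
        ∑ p ∈ A, 1 / Real.sqrt p ≤ 1) ∧ c * X / (Real.log z) ^ κ ≤ (𝒜.card : ℝ))
    (b : Fin (r + 1) → ℝ) (N lam z : ℝ) (M D X : ℕ) (a : ℤ × (Fin r → ℤ) → ℂ) (hN : 0 ≤ N) (hlam : 0 < lam)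
    (hz0 : z₀ ≤ z) (hz2 : 2 ≤ z) (hX1 : 1 ≤ X) (hzX : z ^ 2 ≤ X) (hM : (4 + 2 * (r : ℝ)) * ((|b 0| + N) * N) ≤ M)
    (hXM : 16 * X ^ 2 ≤ M) (hD : 2 * ⌊N⌋₊ + 1 ≤ D) (hXD : 4 * X * M ≤ D ^ 2)
    (hkey : Ct * (M * (2 * (⌊N⌋₊ : ℝ) + 1) ^ r * X / Real.sqrt z +
      M * X * (Real.sqrt D) ^ r * (1 + Real.log D) + X ^ (r + 3)) ≤
        (c * X / (Real.log z) ^ κ) ^ 2 * lam ^ 2 / 2 ^ (r + 3))
    (ha : ∑ ξ ∈ box r b N, ‖a ξ‖ ^ 2 ≤ 1) :
    (volume {w ∈ cube r | lam < ‖FF r (box r b N) a w.1 w.2‖}).toReal ≤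
      2 ^ (r + 3) * (2 * Real.pi) ^ (r + 1) / (c * X / (Real.log z) ^ κ * lam ^ 2) := by
  classical
  have hlz : 0 < Real.log z := Real.log_pos (by linarith)
  have hXpos : (0 : ℝ) < X := by exact_mod_cast hX1
  obtain ⟨𝒜, h𝒜, hcard⟩ := hrough z X hz0 hzX
  obtain ⟨k₀, hk₀⟩ := exists_k₀ r (b 0) N hN M ⌊N⌋₊ (Nat.floor_le hN) hM
  have hcpos : 0 < c * X / (Real.log z) ^ κ := by positivity
  have hcard0 : (0 : ℝ) < 𝒜.card := hcpos.trans_le hcard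
  have hne : 𝒜.Nonempty := by
    rw [← Finset.card_pos]
    exact_mod_cast hcard0
  have hXr : (1 : ℝ) ≤ X := by exact_mod_cast hX1
  have hpr : ∀ A ∈ 𝒜, ∀ p ∈ A, p.Prime := fun A hA p hp => ((h𝒜 A hA).1 p hp).1
  set S' := bx r (Finset.Icc ⌈b 0⌉ ⌊b 0 + N⌋) (fun l => ⌈b l.succ⌉) ⌊N⌋₊ with hS'
  have hsub : box r b N ⊆ S' := box_subset r b hN
  have h1 := hd r M (2 * ⌊N⌋₊ + 1) ⌊N⌋₊ k₀ 1 1 lam (Finset.Icc ⌈b 0⌉ ⌊b 0 + N⌋) (fun l => ⌈b l.succ⌉)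
    (fun ξ => if ξ ∈ box r b N then a ξ else 0) 𝒜 ?_ (by omega) (by omega) one_pos hlam hne hk₀ ?_ ?_ ?_ ?_ ?_
  · have h2 : {w ∈ cube r | lam < ‖FF r (box r b N) a w.1 w.2‖} =
        {w ∈ cube r | lam < ‖FF r S' (fun ξ => if ξ ∈ box r b N then a ξ else 0) w.1 w.2‖} := by
      ext w
      show (w ∈ cube r ∧ lam < ‖FF r (box r b N) a w.1 w.2‖) ↔ (w ∈ cube r ∧
        lam < ‖FF r S' (fun ξ => if ξ ∈ box r b N then a ξ else 0) w.1 w.2‖)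
      rw [FF_ext hsub]
    rw [h2]
    refine h1.trans ?_
    rw [one_mul]
    exact div_le_div_of_nonneg_left (by positivity) (by positivity)
      (mul_le_mul_of_nonneg_right hcard (by positivity))
  · have : 1 ≤ X ^ 2 := Nat.one_le_pow _ _ hX1
    omega
  · intro A hA l
    exact (phi_sq hpsi (hpr A hA) l).le
  · intro A hA A' hA' _ l
    exact phi_mul hpsi (hpr A hA) l
  · intro n _
    have h2 : ∑ A ∈ 𝒜, phi 1 A (n ^ 2) = 𝒜.card := by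
      rw [Finset.sum_congr rfl fun A hA => phi_square hpsi (hpr A hA) n, Finset.sum_const, nsmul_eq_mul, mul_one]
    rw [h2, one_mul]
  · intro t x
    refine (htop M (2 * ⌊N⌋₊ + 1) X D z k₀ 𝒜 t x hz2 (by omega) hX1 hXM hD hXD h𝒜).trans ?_
    push_cast
    have h2 : (0 : ℝ) ≤ M * (2 * (⌊N⌋₊ : ℝ) + 1) ^ r := by positivity
    have h3 := mul_le_mul_of_nonneg_left hkey h2
    have h4 : (c * X / (Real.log z) ^ κ) ^ 2 ≤ (𝒜.card : ℝ) ^ 2 := pow_le_pow_left₀ hcpos.le hcard 2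
    have h5 : (M * (2 * (⌊N⌋₊ : ℝ) + 1) ^ r) * ((c * X / (Real.log z) ^ κ) ^ 2 * lam ^ 2 / 2 ^ (r + 3)) ≤
        (M * (2 * (⌊N⌋₊ : ℝ) + 1) ^ r) * ((𝒜.card : ℝ) ^ 2 * lam ^ 2 / 2 ^ (r + 3)) := by
      refine mul_le_mul_of_nonneg_left ?_ h2
      exact div_le_div_of_nonneg_right (mul_le_mul_of_nonneg_right h4 (by positivity)) (by positivity)
    refine le_trans (le_of_eq ?_) ((h3.trans h5).trans (le_of_eq ?_))
    · ring
    · ring
  · exact (sum_ext hsub a).le.trans ha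

/-! ### The choice of the parameters -/

/-- the constant `Z₀` -/
theorem exists_Z (K : ℝ) (hK : 0 < K) (k q : ℕ) : ∃ Z₁ : ℝ, 1 ≤ Z₁ ∧ ∀ Z V : ℝ, Z₁ ≤ Z → 1 ≤ V →
    K * (Real.log (Z * V ^ q)) ^ k ≤ Real.sqrt Z * V := by
  set ε : ℝ := 1 / (4 * ((q : ℝ) + 1) * ((k : ℝ) + 1)) with hε
  have hq0 : (0 : ℝ) ≤ q := Nat.cast_nonneg _
  have hk0 : (0 : ℝ) ≤ k := Nat.cast_nonneg _
  have hεpos : 0 < ε := by positivity
  have hεk : ε * k ≤ 1 / 4 := by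
    rw [hε, one_div_mul_eq_div, div_le_iff₀ (by positivity)]
    nlinarith
  have hεkq : ε * k * q ≤ 1 := by
    rw [hε, one_div_mul_eq_div, div_mul_eq_mul_div, div_le_iff₀ (by positivity)]
    nlinarith [mul_nonneg hk0 hq0]
  refine ⟨max 1 ((K / ε ^ k) ^ 4), le_max_left _ _, fun Z V hZ hV => ?_⟩
  have hZ1 : 1 ≤ Z := (le_max_left _ _).trans hZ
  have hZ2 : (K / ε ^ k) ^ 4 ≤ Z := (le_max_right _ _).trans hZ
  have hW : 1 ≤ Z * V ^ q := by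
    have := one_le_pow₀ hV (n := q)
    nlinarith
  have h1 : Real.log (Z * V ^ q) ≤ (Z * V ^ q) ^ ε / ε := Real.log_le_rpow_div (by linarith) hεpos
  have h2 : (Real.log (Z * V ^ q)) ^ k ≤ ((Z * V ^ q) ^ ε / ε) ^ k :=
    pow_le_pow_left₀ (Real.log_nonneg hW) h1 k
  have h3 : ((Z * V ^ q) ^ ε / ε) ^ k = (Z ^ (ε * k)) * (V ^ (ε * k * q)) / ε ^ k := by
    rw [div_pow, ← Real.rpow_natCast ((Z * V ^ q) ^ ε) k, ← Real.rpow_mul (by linarith),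
      Real.mul_rpow (by linarith) (by positivity)]
    congr 2
    rw [← Real.rpow_natCast V q, ← Real.rpow_mul (by linarith)]
    congr 1
    ring
  have h4 : Z ^ (ε * k) ≤ Z ^ (1 / 4 : ℝ) := Real.rpow_le_rpow_of_exponent_le hZ1 hεk
  have h5 : V ^ (ε * k * q) ≤ V := by
    calc V ^ (ε * k * q) ≤ V ^ (1 : ℝ) := Real.rpow_le_rpow_of_exponent_le hV hεkq
      _ = V := Real.rpow_one V
  have h6 : K / ε ^ k ≤ Z ^ (1 / 4 : ℝ) := by
    have h7 : K / ε ^ k = ((K / ε ^ k) ^ 4) ^ (1 / 4 : ℝ) := by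
      have h8 : (0 : ℝ) ≤ K / ε ^ k := by positivity
      rw [← Real.rpow_natCast (K / ε ^ k) 4, ← Real.rpow_mul h8]
      norm_num
    rw [h7]
    exact Real.rpow_le_rpow (by positivity) hZ2 (by norm_num)
  have h7 : Z ^ (1 / 4 : ℝ) * Z ^ (1 / 4 : ℝ) = Real.sqrt Z := by
    rw [← Real.rpow_add (by linarith), Real.sqrt_eq_rpow]
    norm_num
  have hZ4 : 0 ≤ Z ^ (1 / 4 : ℝ) := Real.rpow_nonneg (by linarith) _
  calc K * (Real.log (Z * V ^ q)) ^ k ≤ K * ((Z ^ (ε * k)) * (V ^ (ε * k * q)) / ε ^ k) := by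
        rw [← h3]
        exact mul_le_mul_of_nonneg_left h2 hK.le
    _ = (K / ε ^ k) * (Z ^ (ε * k) * V ^ (ε * k * q)) := by ring
    _ ≤ Z ^ (1 / 4 : ℝ) * (Z ^ (1 / 4 : ℝ) * V) := by
        refine mul_le_mul h6 (mul_le_mul h4 h5 (Real.rpow_nonneg (by linarith) _) hZ4)
          (mul_nonneg (Real.rpow_nonneg (by linarith) _) (Real.rpow_nonneg (by linarith) _)) hZ4
    _ = Real.sqrt Z * V := by rw [← mul_assoc, h7]

/-- powers of the logarithm are small -/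
theorem ev_log (K : ℝ) (k : ℕ) : ∀ᶠ P : ℝ in Filter.atTop, K * (Real.log P) ^ k ≤ P := by
  have h2 := (Real.isLittleO_pow_log_id_atTop (n := k)).bound (show 0 < 1 / (|K| + 1) by positivity)
  filter_upwards [h2, Filter.eventually_ge_atTop 1] with z hz hz1
  rw [Real.norm_eq_abs, Real.norm_eq_abs, id, abs_of_nonneg (by linarith : (0 : ℝ) ≤ z)] at hz
  have hl : 0 ≤ Real.log z := Real.log_nonneg hz1
  rw [abs_of_nonneg (by positivity), one_div_mul_eq_div, le_div_iff₀ (by positivity)] at hz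
  have h3 : K ≤ |K| + 1 := (le_abs_self K).trans (by linarith)
  have h4 : 0 ≤ Real.log z ^ k := by positivity
  nlinarith

theorem term1 {r κ : ℕ} {δ c₅ K R μ n Lm l T X sz : ℝ} (hδ : 0 < δ) (hc₅ : 0 < c₅) (hR : 0 < R) (hμ : 0 < μ)
    (hLm : 0 < Lm) (hl : 0 < l) (hX : 0 < X) (hsz : 0 < sz) (hn : Lm * μ = n)
    (hT : T = c₅ * Lm / l ^ (2 * κ)) (hK : K = 2 * (5 + 2 * (r : ℝ)) * 3 ^ r / (δ * c₅))
    (h2 : K * (R * μ ^ (r + 2)) * l ^ (4 * κ) ≤ sz) (hXT : T / 2 ≤ X) :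
    ((5 + 2 * (r : ℝ)) * R * n ^ 2) * (3 * n) ^ r * X / sz ≤ δ * X ^ 2 * Lm ^ (r + 1) / l ^ (2 * κ) := by
  have hr0 : (0 : ℝ) ≤ r := Nat.cast_nonneg _
  have hT0 : 0 < T := by rw [hT]; positivity
  have hK0 : 0 < K := by rw [hK]; positivity
  rw [div_le_div_iff₀ hsz (by positivity)]
  have h3 : T / 2 * Lm ^ (r + 1) * (K * (R * μ ^ (r + 2)) * l ^ (4 * κ)) ≤ X * Lm ^ (r + 1) * sz :=
    mul_le_mul (mul_le_mul_of_nonneg_right hXT (by positivity)) h2 (by positivity) (by positivity)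
  have h4 : δ * (T / 2 * Lm ^ (r + 1) * (K * (R * μ ^ (r + 2)) * l ^ (4 * κ))) =
      (5 + 2 * (r : ℝ)) * R * n ^ 2 * (3 * n) ^ r * l ^ (2 * κ) := by
    have h5 : l ^ (4 * κ) = l ^ (2 * κ) * l ^ (2 * κ) := by
      rw [← pow_add]
      congr 1
      ring
    have hl2 : l ^ (2 * κ) ≠ 0 := by positivity
    rw [hT, hK, ← hn, h5]
    generalize l ^ (2 * κ) = w at hl2
    rw [mul_pow 3 (Lm * μ) r, mul_pow Lm μ r, pow_succ Lm r, pow_add μ r 2]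
    field_simp
  have h5 := mul_le_mul_of_nonneg_left h3 hδ.le
  rw [h4] at h5
  have h6 := mul_le_mul_of_nonneg_right h5 hX.le
  calc (5 + 2 * (r : ℝ)) * R * n ^ 2 * (3 * n) ^ r * X * l ^ (2 * κ)
      = (5 + 2 * (r : ℝ)) * R * n ^ 2 * (3 * n) ^ r * l ^ (2 * κ) * X := by ring
    _ ≤ δ * (X * Lm ^ (r + 1) * sz) * X := h6
    _ = _ := by ring

theorem term2 {r κ : ℕ} {δ c₅ K' R μ n Lm l T X s w : ℝ} (hδ : 0 < δ) (hc₅ : 0 < c₅) (hR : 0 < R) (hμ : 0 < μ)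
    (hLm : 0 < Lm) (hl : 0 < l) (hX : 0 < X) (hn : Lm * μ = n)
    (hT : T = c₅ * Lm / l ^ (2 * κ)) (hK' : K' = 2 * (5 + 2 * (r : ℝ)) / (δ * c₅))
    (h1 : K' * (R * μ ^ (r + 2)) * n ^ 2 * s * w * l ^ (4 * κ) ≤ n ^ (r + 2)) (hXT : T / 2 ≤ X) :
    ((5 + 2 * (r : ℝ)) * R * n ^ 2) * X * s * w ≤ δ * X ^ 2 * Lm ^ (r + 1) / l ^ (2 * κ) := by
  have hr0 : (0 : ℝ) ≤ r := Nat.cast_nonneg _
  rw [le_div_iff₀ (by positivity)]
  have h2 : K' * R * n ^ 2 * s * w * l ^ (4 * κ) ≤ Lm ^ (r + 2) := by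
    have hμr : 0 < μ ^ (r + 2) := by positivity
    refine le_of_mul_le_mul_right ?_ hμr
    rw [← mul_pow, hn]
    calc K' * R * n ^ 2 * s * w * l ^ (4 * κ) * μ ^ (r + 2) =
          K' * (R * μ ^ (r + 2)) * n ^ 2 * s * w * l ^ (4 * κ) := by ring
      _ ≤ _ := h1
  have h5 : l ^ (4 * κ) = l ^ (2 * κ) * l ^ (2 * κ) := by
    rw [← pow_add]
    congr 1
    ring
  have hl0 : 0 < l ^ (2 * κ) := by positivity
  have h6 : (5 + 2 * (r : ℝ)) * R * n ^ 2 * s * w * l ^ (2 * κ) ≤ δ * (T / 2) * Lm ^ (r + 1) := by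
    have h7 : δ * (T / 2) * Lm ^ (r + 1) * (2 / (δ * c₅) * l ^ (2 * κ)) = Lm ^ (r + 2) := by
      rw [hT, pow_succ Lm (r + 1)]
      field_simp
    have h8 : (5 + 2 * (r : ℝ)) * R * n ^ 2 * s * w * l ^ (2 * κ) * (2 / (δ * c₅) * l ^ (2 * κ)) =
        K' * R * n ^ 2 * s * w * l ^ (4 * κ) := by
      rw [hK', h5]
      field_simp
    have h9 : 0 < 2 / (δ * c₅) * l ^ (2 * κ) := by positivity
    refine le_of_mul_le_mul_right ?_ h9
    rw [h7, h8]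
    exact h2
  have h7 : δ * (T / 2) * Lm ^ (r + 1) ≤ δ * X * Lm ^ (r + 1) :=
    mul_le_mul_of_nonneg_right (mul_le_mul_of_nonneg_left hXT hδ.le) (by positivity)
  have h8 := mul_le_mul_of_nonneg_right (h6.trans h7) hX.le
  calc (5 + 2 * (r : ℝ)) * R * n ^ 2 * X * s * w * l ^ (2 * κ)
      = (5 + 2 * (r : ℝ)) * R * n ^ 2 * s * w * l ^ (2 * κ) * X := by ring
    _ ≤ δ * X * Lm ^ (r + 1) * X := h8
    _ = _ := by ring

theorem term3 {r κ : ℕ} {δ c₅ Lm l T X : ℝ} (hc₅ : 0 < c₅) (hc₁ : c₅ ≤ 1) (hcδ : c₅ ≤ δ)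
    (hLm : 0 < Lm) (hl : 1 ≤ l) (hX : 0 < X) (hT : T = c₅ * Lm / l ^ (2 * κ)) (hXT : X ≤ T) :
    X ^ (r + 3) ≤ δ * X ^ 2 * Lm ^ (r + 1) / l ^ (2 * κ) := by
  have hl2 : 1 ≤ l ^ (2 * κ) := one_le_pow₀ hl
  rw [le_div_iff₀ (by positivity)]
  have h1 : X ^ (r + 1) ≤ T ^ (r + 1) := pow_le_pow_left₀ hX.le hXT _
  have h2 : T ^ (r + 1) * l ^ (2 * κ) ≤ δ * Lm ^ (r + 1) := by
    rw [hT, div_pow, mul_pow, div_mul_eq_mul_div, div_le_iff₀ (by positivity)]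
    have h3 : c₅ ^ (r + 1) ≤ δ := (pow_le_of_le_one hc₅.le hc₁ (by omega)).trans hcδ
    have h4 : l ^ (2 * κ) ≤ (l ^ (2 * κ)) ^ (r + 1) := le_self_pow₀ hl2 (by omega)
    have hδ : 0 < δ := hc₅.trans_le hcδ
    exact mul_le_mul (mul_le_mul_of_nonneg_right h3 (by positivity)) h4 (by positivity) (by positivity)
  calc X ^ (r + 3) * l ^ (2 * κ) = X ^ 2 * (X ^ (r + 1) * l ^ (2 * κ)) := by ring
    _ ≤ X ^ 2 * (δ * Lm ^ (r + 1)) := by
        refine mul_le_mul_of_nonneg_left ?_ (by positivity)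
        exact (mul_le_mul_of_nonneg_right h1 (by positivity)).trans h2
    _ = _ := by ring

theorem bigT {κ : ℕ} {c₅ Z P z l Lm : ℝ} (hc₅ : 0 < c₅) (hP : 3 ≤ P) (hz : 3 ≤ z) (hl1 : 1 ≤ l)
    (hzP : z ≤ Z * P ^ 2) (hZ : 3 ≤ Z) (hlP3 : l ≤ 3 * Real.log P) (hlP : 1 ≤ Real.log P)
    (hE1 : 2 * Z ^ 2 * 3 ^ (2 * κ) / c₅ * Real.log P ^ (2 * κ) ≤ P) (hLmP : P ^ 31 ≤ Lm) :
    2 * z ^ 2 ≤ c₅ * Lm / l ^ (2 * κ) := by
  rw [le_div_iff₀ (by positivity)]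
  have h1 : z ^ 2 ≤ Z ^ 2 * P ^ 4 := by
    calc z ^ 2 ≤ (Z * P ^ 2) ^ 2 := pow_le_pow_left₀ (by linarith) hzP 2
      _ = Z ^ 2 * P ^ 4 := by ring
  have h2 : l ^ (2 * κ) ≤ 3 ^ (2 * κ) * Real.log P ^ (2 * κ) := by
    rw [← mul_pow]
    exact pow_le_pow_left₀ (by linarith) hlP3 _
  have h3 : 2 * Z ^ 2 * 3 ^ (2 * κ) * Real.log P ^ (2 * κ) ≤ c₅ * P := by
    have h4 : 2 * Z ^ 2 * 3 ^ (2 * κ) / c₅ * Real.log P ^ (2 * κ) * c₅ ≤ P * c₅ :=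
      mul_le_mul_of_nonneg_right hE1 hc₅.le
    have h5 : 2 * Z ^ 2 * 3 ^ (2 * κ) / c₅ * Real.log P ^ (2 * κ) * c₅ =
        2 * Z ^ 2 * 3 ^ (2 * κ) * Real.log P ^ (2 * κ) := by
      field_simp
    linarith
  calc 2 * z ^ 2 * l ^ (2 * κ) ≤ 2 * (Z ^ 2 * P ^ 4) * (3 ^ (2 * κ) * Real.log P ^ (2 * κ)) :=
        mul_le_mul (by linarith) h2 (by positivity) (by positivity)
    _ = P ^ 4 * (2 * Z ^ 2 * 3 ^ (2 * κ) * Real.log P ^ (2 * κ)) := by ring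
    _ ≤ P ^ 4 * (c₅ * P) := mul_le_mul_of_nonneg_left h3 (by positivity)
    _ = c₅ * P ^ 5 := by ring
    _ ≤ c₅ * P ^ 31 := mul_le_mul_of_nonneg_left (pow_le_pow_right₀ (by linarith) (by norm_num)) hc₅.le
    _ ≤ c₅ * Lm := mul_le_mul_of_nonneg_left hLmP hc₅.le

theorem big2 {r κ : ℕ} (hr : 1 ≤ r) {K' P l Rμ s w : ℝ} (hK' : 0 < K') (hP : 3 ≤ P) (hl1 : 1 ≤ l)
    (hlP3 : l ≤ 3 * Real.log P) (hlP : 1 ≤ Real.log P) (hRμ : Rμ ≤ P) (hs0 : 0 ≤ s)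
    (hs : s ≤ 2 * P ^ 28) (hw0 : 0 ≤ w) (hw : w ≤ 58 * Real.log P)
    (hE4 : K' * 2 ^ r * 58 * 3 ^ (4 * κ) * Real.log P ^ (4 * κ + 1) ≤ P) :
    K' * Rμ * (P ^ 32) ^ 2 * s ^ r * w * l ^ (4 * κ) ≤ (P ^ 32) ^ (r + 2) := by
  have h2 : s ^ r ≤ (2 * P ^ 28) ^ r := pow_le_pow_left₀ hs0 hs r
  have h3 : l ^ (4 * κ) ≤ 3 ^ (4 * κ) * Real.log P ^ (4 * κ) := by
    rw [← mul_pow]
    exact pow_le_pow_left₀ (by linarith) hlP3 _
  have hP0 : 0 < P := by linarith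
  have h0 : 0 ≤ Real.log P := by linarith
  have e1 : K' * Rμ ≤ K' * P := mul_le_mul_of_nonneg_left hRμ hK'.le
  have e2 : K' * Rμ * (P ^ 32) ^ 2 ≤ K' * P * (P ^ 32) ^ 2 := mul_le_mul_of_nonneg_right e1 (by positivity)
  have e3 : K' * Rμ * (P ^ 32) ^ 2 * s ^ r ≤ K' * P * (P ^ 32) ^ 2 * (2 * P ^ 28) ^ r :=
    mul_le_mul e2 h2 (by positivity) (by positivity)
  have e4 : K' * Rμ * (P ^ 32) ^ 2 * s ^ r * w ≤ K' * P * (P ^ 32) ^ 2 * (2 * P ^ 28) ^ r * (58 * Real.log P) :=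
    mul_le_mul e3 hw hw0 (by positivity)
  calc K' * Rμ * (P ^ 32) ^ 2 * s ^ r * w * l ^ (4 * κ)
      ≤ K' * P * (P ^ 32) ^ 2 * (2 * P ^ 28) ^ r * (58 * Real.log P) * (3 ^ (4 * κ) * Real.log P ^ (4 * κ)) :=
        mul_le_mul e4 h3 (by positivity) (by positivity)
    _ = (K' * 2 ^ r * 58 * 3 ^ (4 * κ) * Real.log P ^ (4 * κ + 1)) * (P ^ 65 * P ^ (28 * r)) := by
        rw [mul_pow, ← pow_mul P 28 r, pow_succ (Real.log P)]
        ring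
    _ ≤ P * (P ^ 65 * P ^ (28 * r)) := mul_le_mul_of_nonneg_right hE4 (by positivity)
    _ = P ^ (66 + 28 * r) := by ring
    _ ≤ P ^ (32 * (r + 2)) := pow_le_pow_right₀ (by linarith) (by omega)
    _ = (P ^ 32) ^ (r + 2) := by rw [pow_mul]

/-- **the parameters** -/
theorem fit {r : ℕ} (hr : 1 ≤ r) {δ : ℝ} (hδ : 0 < δ) (z₀ : ℝ) (κ : ℕ) :
    ∃ c₅ Z P₀ : ℝ, 0 < c₅ ∧ 3 ≤ Z ∧ z₀ ≤ Z ∧ 1 ≤ P₀ ∧ ∀ P R μ : ℝ, P₀ ≤ P → 1 ≤ R → 1 / 2 ≤ μ →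
      (R * max μ 2) ^ (r + 3) ≤ P → ∀ z l : ℝ, z = Z * (R * max μ 2) ^ (2 * (r + 3)) → l = Real.log z →
      ∃ X D : ℕ, 1 ≤ X ∧ z ^ 2 ≤ X ∧ (X : ℝ) ≤ P ^ 32 / 2 ∧ 2 * ⌊P ^ 32⌋₊ + 1 ≤ D ∧
        (4 * X * ((5 + 2 * (r : ℝ)) * R * (P ^ 32) ^ 2) ≤ (D : ℝ) ^ 2) ∧
        c₅ * (P ^ 32 / μ) / (2 * l ^ (2 * κ)) ≤ X ∧
        ((5 + 2 * (r : ℝ)) * R * (P ^ 32) ^ 2) * (3 * P ^ 32) ^ r * X / Real.sqrt z ≤
          δ * X ^ 2 * (P ^ 32 / μ) ^ (r + 1) / l ^ (2 * κ) ∧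
        ((5 + 2 * (r : ℝ)) * R * (P ^ 32) ^ 2) * X * (Real.sqrt D) ^ r * (1 + Real.log D) ≤
          δ * X ^ 2 * (P ^ 32 / μ) ^ (r + 1) / l ^ (2 * κ) ∧
        (X : ℝ) ^ (r + 3) ≤ δ * X ^ 2 * (P ^ 32 / μ) ^ (r + 1) / l ^ (2 * κ) := by
  have hr0 : (0 : ℝ) ≤ r := Nat.cast_nonneg _
  set c₅ : ℝ := min (1 / 4) δ with hc₅
  have hc₅pos : 0 < c₅ := lt_min (by norm_num) hδ
  have hc₅4 : c₅ ≤ 1 / 4 := min_le_left _ _
  have hc₅δ : c₅ ≤ δ := min_le_right _ _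
  set K : ℝ := 2 * (5 + 2 * (r : ℝ)) * 3 ^ r / (δ * c₅) with hK
  have hKpos : 0 < K := by positivity
  set K' : ℝ := 2 * (5 + 2 * (r : ℝ)) / (δ * c₅) with hK'
  have hK'pos : 0 < K' := by positivity
  obtain ⟨Z₁, hZ₁, hZ⟩ := exists_Z K hKpos (4 * κ) (2 * (r + 3))
  set Z : ℝ := max (max 3 z₀) Z₁ with hZdef
  have hZ3 : 3 ≤ Z := (le_max_left _ _).trans (le_max_left _ _)
  have hZz : z₀ ≤ Z := (le_max_right _ _).trans (le_max_left _ _)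
  have hZZ : Z₁ ≤ Z := le_max_right _ _
  have hev := (ev_log (2 * Z ^ 2 * 3 ^ (2 * κ) / c₅) (2 * κ)).and
    ((ev_log (K' * 2 ^ r * 58 * 3 ^ (4 * κ)) (4 * κ + 1)).and
      ((Filter.eventually_ge_atTop (max Z (2 * (5 + 2 * (r : ℝ)))))))
  obtain ⟨P₁, hP₁⟩ := Filter.eventually_atTop.1 hev
  refine ⟨c₅, Z, max P₁ 1, hc₅pos, hZ3, hZz, le_max_right _ _, ?_⟩
  intro P R μ hP hR hμ hVP z l hz hl
  obtain ⟨hE1, hE4, hPZ⟩ := hP₁ P ((le_max_left _ _).trans hP)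
  have hPZ' : Z ≤ P := (le_max_left _ _).trans hPZ
  have hPr : 2 * (5 + 2 * (r : ℝ)) ≤ P := (le_max_right _ _).trans hPZ
  have hP3 : 3 ≤ P := hZ3.trans hPZ'
  have hlP : 1 ≤ Real.log P := by
    rw [Real.le_log_iff_exp_le (by linarith)]
    have := Real.exp_one_lt_d9
    linarith
  set V : ℝ := R * max μ 2 with hV
  have hm2 : 2 ≤ max μ 2 := le_max_right _ _
  have hmμ : μ ≤ max μ 2 := le_max_left _ _
  have hV2 : 2 ≤ V := hm2.trans (le_mul_of_one_le_left (by linarith) hR)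
  have hRV : R ≤ V := le_mul_of_one_le_right (by linarith) (by linarith)
  have hV1 : 1 ≤ V := by linarith
  have hVV : V ≤ V ^ (r + 3) := le_self_pow₀ hV1 (by omega)
  have hRP : R ≤ P := hRV.trans (hVV.trans hVP)
  have hμV : μ ≤ V := hmμ.trans (le_mul_of_one_le_left (by linarith) hR)
  have hμP : μ ≤ P := hμV.trans (hVV.trans hVP)
  have hRμ : R * μ ^ (r + 2) ≤ V ^ (r + 2) := by
    rw [hV, mul_pow]
    refine mul_le_mul (le_self_pow₀ hR (by omega)) (pow_le_pow_left₀ (by linarith) hmμ _) (by positivity) (by positivity)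
  have hRμP : R * μ ^ (r + 2) ≤ P :=
    hRμ.trans ((pow_le_pow_right₀ hV1 (by omega)).trans hVP)
  have hzpos : 3 ≤ z := by
    rw [hz]
    exact hZ3.trans (le_mul_of_one_le_right (by linarith) (one_le_pow₀ hV1))
  have hl1 : 1 ≤ l := by
    rw [hl, Real.le_log_iff_exp_le (by linarith)]
    have := Real.exp_one_lt_d9
    linarith
  have hzP : z ≤ Z * P ^ 2 := by
    rw [hz, mul_comm 2 (r + 3), pow_mul]
    exact mul_le_mul_of_nonneg_left (pow_le_pow_left₀ (by positivity) hVP 2) (by linarith)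
  have hlP3 : l ≤ 3 * Real.log P := by
    have h1 : z ≤ P ^ 3 := hzP.trans (by
      calc Z * P ^ 2 ≤ P * P ^ 2 := mul_le_mul_of_nonneg_right hPZ' (by positivity)
        _ = P ^ 3 := by ring)
    have h2 := Real.log_le_log (by linarith) h1
    rw [Real.log_pow] at h2
    rw [hl]
    exact_mod_cast h2
  have hl2 : 1 ≤ l ^ (2 * κ) := one_le_pow₀ hl1
  set Lm : ℝ := P ^ 32 / μ with hLm
  have hμ0 : 0 < μ := by linarith
  have hLm0 : 0 < Lm := by positivity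
  have hLmμ : Lm * μ = P ^ 32 := by
    rw [hLm]
    field_simp
  have hLmP : P ^ 31 ≤ Lm := by
    rw [hLm, le_div_iff₀ hμ0]
    calc P ^ 31 * μ ≤ P ^ 31 * P := mul_le_mul_of_nonneg_left hμP (by positivity)
      _ = P ^ 32 := by ring
  set T : ℝ := c₅ * Lm / l ^ (2 * κ) with hT
  have hT0 : 0 < T := by positivity
  have hTz : 2 * z ^ 2 ≤ T := by
    rw [hT]
    exact bigT hc₅pos hP3 hzpos hl1 hzP hZ3 hlP3 hlP hE1 hLmP
  set X : ℕ := ⌊T⌋₊ with hX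
  have hXT : (X : ℝ) ≤ T := Nat.floor_le hT0.le
  have h9z : (9 : ℝ) ≤ z ^ 2 := by
    have := pow_le_pow_left₀ (by norm_num : (0 : ℝ) ≤ 3) hzpos 2
    linarith
  have hXT2 : T / 2 ≤ X := by
    have h1 := Nat.lt_floor_add_one T
    rw [← hX] at h1
    linarith
  have hX1 : (1 : ℝ) ≤ X := by linarith
  have hX0 : (0 : ℝ) < X := by linarith
  set D : ℕ := ⌈P ^ 56⌉₊ with hD
  have hDP : P ^ 56 ≤ D := Nat.le_ceil _
  have hP56 : (1 : ℝ) ≤ P ^ 56 := one_le_pow₀ (by linarith)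
  have hD2 : (D : ℝ) ≤ 2 * P ^ 56 := by
    have := Nat.ceil_lt_add_one (show 0 ≤ P ^ 56 by positivity)
    rw [← hD] at this
    linarith
  have hsD : Real.sqrt D ≤ 2 * P ^ 28 := by
    rw [Real.sqrt_le_left (by positivity)]
    calc (D : ℝ) ≤ 2 * P ^ 56 := hD2
      _ ≤ 4 * P ^ 56 := by linarith
      _ = (2 * P ^ 28) ^ 2 := by ring
  have hlD : 1 + Real.log D ≤ 58 * Real.log P := by
    have h1 : Real.log D ≤ Real.log (2 * P ^ 56) :=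
      Real.log_le_log (by linarith) hD2
    rw [Real.log_mul (by norm_num) (by positivity), Real.log_pow] at h1
    have h2 := Real.log_two_lt_d9
    push_cast at h1
    linarith
  have hXN : (X : ℝ) ≤ P ^ 32 / 2 := by
    have h1 : Lm ≤ 2 * P ^ 32 := by
      rw [hLm, div_le_iff₀ hμ0]
      have h2 : (0 : ℝ) ≤ P ^ 32 := by positivity
      calc P ^ 32 = 2 * P ^ 32 * (1 / 2) := by ring
        _ ≤ 2 * P ^ 32 * μ := mul_le_mul_of_nonneg_left hμ (by linarith)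
    calc (X : ℝ) ≤ T := hXT
      _ ≤ c₅ * Lm := div_le_self (by positivity) hl2
      _ ≤ (1 / 4) * Lm := mul_le_mul_of_nonneg_right hc₅4 hLm0.le
      _ ≤ P ^ 32 / 2 := by linarith
  refine ⟨X, D, by exact_mod_cast hX1, by linarith, ?_, ?_, ?_, ?_, ?_, ?_, ?_⟩
  · exact hXN
  · have h1 : ((2 * ⌊P ^ 32⌋₊ + 1 : ℕ) : ℝ) ≤ D := by
      push_cast
      have h2 : (⌊P ^ 32⌋₊ : ℝ) ≤ P ^ 32 := Nat.floor_le (by positivity)
      have h3 : (1 : ℝ) ≤ P ^ 32 := one_le_pow₀ (by linarith)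
      have h4 : 3 * P ^ 32 ≤ P ^ 56 := by
        calc 3 * P ^ 32 ≤ P * P ^ 32 := mul_le_mul_of_nonneg_right hP3 (by positivity)
          _ = P ^ 33 := by ring
          _ ≤ P ^ 56 := pow_le_pow_right₀ (by linarith) (by norm_num)
      linarith
    exact_mod_cast h1
  · have h1 := hXN
    calc 4 * (X : ℝ) * ((5 + 2 * (r : ℝ)) * R * (P ^ 32) ^ 2)
        ≤ 4 * (P ^ 32 / 2) * ((5 + 2 * (r : ℝ)) * P * (P ^ 32) ^ 2) := by
          refine mul_le_mul (by linarith) ?_ (by positivity) (by positivity)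
          exact mul_le_mul_of_nonneg_right (mul_le_mul_of_nonneg_left hRP (by positivity)) (by positivity)
      _ = (2 * (5 + 2 * (r : ℝ))) * P ^ 97 := by ring
      _ ≤ P * P ^ 97 := mul_le_mul_of_nonneg_right hPr (by positivity)
      _ = P ^ 98 := by ring
      _ ≤ P ^ 112 := pow_le_pow_right₀ (by linarith) (by norm_num)
      _ = (P ^ 56) ^ 2 := by ring
      _ ≤ (D : ℝ) ^ 2 := pow_le_pow_left₀ (by positivity) hDP 2
  · calc c₅ * Lm / (2 * l ^ (2 * κ)) = T / 2 := by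
          rw [hT]
          ring
      _ ≤ X := hXT2
  · -- the first term
    have hsz : Real.sqrt z = Real.sqrt Z * V ^ (r + 3) := by
      rw [hz, Real.sqrt_mul (by linarith), mul_comm 2 (r + 3), pow_mul, Real.sqrt_sq (by positivity)]
    have h1 := hZ Z V hZZ hV1
    rw [← hz, ← hl] at h1
    have h2 : K * (R * μ ^ (r + 2)) * l ^ (4 * κ) ≤ Real.sqrt z := by
      calc K * (R * μ ^ (r + 2)) * l ^ (4 * κ) = (K * l ^ (4 * κ)) * (R * μ ^ (r + 2)) := by ring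
        _ ≤ (Real.sqrt Z * V) * V ^ (r + 2) := mul_le_mul h1 hRμ (by positivity) (by positivity)
        _ = Real.sqrt z := by
            rw [hsz]
            ring
    have hszpos : 0 < Real.sqrt z := Real.sqrt_pos.2 (by linarith)
    exact term1 hδ hc₅pos (by linarith) hμ0 hLm0 (by linarith) hX0 hszpos hLmμ hT hK h2 hXT2
  · -- the second term
    have hlD0 : 0 ≤ 1 + Real.log D := by
      have := Real.log_nonneg (show (1 : ℝ) ≤ D by linarith)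
      linarith
    exact term2 hδ hc₅pos (by linarith) hμ0 hLm0 (by linarith) hX0 hLmμ hT hK'
      (big2 hr hK'pos hP3 hl1 hlP3 hlP hRμP (Real.sqrt_nonneg _) hsD hlD0 hlD hE4) hXT2
  · -- the third term
    exact term3 hc₅pos (by linarith) hc₅δ hLm0 hl1 hX0 hT hXT

/-! ### The trivial bound -/

theorem card_box (r : ℕ) (b : Fin (r + 1) → ℝ) {N : ℝ} (hN : 1 ≤ N) :
    ((Pool.Agent.Helper64.AS.box r b N).card : ℝ) ≤ (2 * N) ^ (r + 1) := by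
  have h1 : ∀ c : ℝ, ((Finset.Icc ⌈c⌉ ⌊c + N⌋).card : ℝ) ≤ 2 * N := by
    intro c
    rw [Int.card_Icc]
    have h2 : ((⌊c + N⌋ + 1 - ⌈c⌉).toNat : ℝ) = ((max (⌊c + N⌋ + 1 - ⌈c⌉) 0 : ℤ) : ℝ) := by
      rw [← Int.toNat_eq_max]
      push_cast
      rfl
    rw [h2]
    have h3 := Int.floor_le (c + N)
    have h4 := Int.le_ceil c
    push_cast
    exact max_le (by linarith) (by linarith)
  unfold Pool.Agent.Helper64.AS.box
  rw [Finset.card_product, Fintype.card_piFinset]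
  push_cast
  rw [pow_succ, mul_comm]
  refine mul_le_mul ?_ (h1 (b 0)) (Nat.cast_nonneg _) (by positivity)
  calc ∏ l : Fin r, ((Finset.Icc ⌈b l.succ⌉ ⌊b l.succ + N⌋).card : ℝ) ≤ ∏ _l : Fin r, (2 * N) :=
        Finset.prod_le_prod (fun _ _ => Nat.cast_nonneg _) fun l _ => h1 _
    _ = (2 * N) ^ r := by rw [Finset.prod_const, Finset.card_univ, Fintype.card_fin]

theorem norm_FF_le (r : ℕ) (S : Finset (ℤ × (Fin r → ℤ))) (a : ℤ × (Fin r → ℤ) → ℂ) (t : ℝ) (x : Fin r → ℝ)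
    (ha : ∑ ξ ∈ S, ‖a ξ‖ ^ 2 ≤ 1) : ‖FF r S a t x‖ ^ 2 ≤ S.card := by
  have h1 : ‖FF r S a t x‖ ≤ ∑ ξ ∈ S, ‖a ξ‖ := by
    unfold FF
    refine (norm_sum_le _ _).trans (le_of_eq (Finset.sum_congr rfl fun ξ _ => ?_))
    rw [norm_mul, Complex.norm_exp_ofReal_mul_I, mul_one]
  have h2 : (∑ ξ ∈ S, ‖a ξ‖) ^ 2 ≤ S.card * ∑ ξ ∈ S, ‖a ξ‖ ^ 2 := sq_sum_le_card_mul_sum_sq
  calc ‖FF r S a t x‖ ^ 2 ≤ (∑ ξ ∈ S, ‖a ξ‖) ^ 2 := pow_le_pow_left₀ (norm_nonneg _) h1 2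
    _ ≤ S.card * ∑ ξ ∈ S, ‖a ξ‖ ^ 2 := h2
    _ ≤ S.card * 1 := mul_le_mul_of_nonneg_left ha (Nat.cast_nonneg _)
    _ = S.card := mul_one _

end LSt

open LSt Pool.Agent.Helper64.AS

theorem LStop (hd : S_dual) (ht : S_top) (hro : S_rough) (hpsi : S_psi) : S_LStop := by
  intro r hr
  obtain ⟨Ct, hCt, htop⟩ := ht r hr
  obtain ⟨c, z₀, κ, hc, hz₀, hrough⟩ := hro
  have hr0 : (0 : ℝ) ≤ r := Nat.cast_nonneg _
  set δ : ℝ := c ^ 2 / (3 * 2 ^ (r + 3) * Ct) with hδdef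
  have hδ : 0 < δ := by positivity
  obtain ⟨c₅, Z, P₀, hc₅, hZ3, hZz, hP₀, hfit⟩ := fit hr hδ z₀ κ
  set c₁ : ℝ := 1 / (64 * ((r : ℝ) + 3)) with hc₁
  have hc₁pos : 0 < c₁ := by positivity
  have hlZ : 0 < Real.log Z := Real.log_pos (by linarith)
  set C₂ : ℝ := 2 ^ (r + 3) * (2 * Real.pi) ^ (r + 1) * (2 / (c * c₅)) * (Real.log Z + 2 * ((r : ℝ) + 3)) ^ (3 * κ)
    with hC₂
  have hC₂pos : 0 < C₂ := by positivity
  refine ⟨max (max (P₀ ^ 32) (2 ^ (64 * (r + 3)))) C₂, c₁, 3 * κ, lt_of_lt_of_le hC₂pos (le_max_right _ _), hc₁pos, ?_⟩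
  intro b N lam a hN hlam hLam hR ha
  have hNP : P₀ ^ 32 ≤ N := ((le_max_left _ _).trans (le_max_left _ _)).trans hN
  have hN2 : (2 : ℝ) ^ (64 * (r + 3)) ≤ N := ((le_max_right _ _).trans (le_max_left _ _)).trans hN
  have hN1 : 1 ≤ N := (one_le_pow₀ (by norm_num)).trans hN2
  have hN0 : 0 < N := by linarith
  have hl0 : 0 ≤ |Real.log (N ^ (((r : ℝ) + 1) / 2) / lam)| := abs_nonneg _
  set R : ℝ := (|b 0| + N) / N with hRdef
  have hR1 : 1 ≤ R := by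
    rw [hRdef, le_div_iff₀ hN0]
    have := abs_nonneg (b 0)
    linarith
  have hlR : 0 ≤ Real.log R := Real.log_nonneg hR1
  have hlampow : 0 < lam ^ (-(2 + 2 / ((r : ℝ) + 1))) := Real.rpow_pos_of_pos hlam _
  by_cases hbig : (2 * N) ^ (r + 1) ≤ lam ^ 2
  · have h1 : {w ∈ cube r | lam < ‖FF r (box r b N) a w.1 w.2‖} = ∅ := by
      rw [Set.eq_empty_iff_forall_notMem]
      rintro w ⟨_, hw⟩
      have h2 := norm_FF_le r (box r b N) a w.1 w.2 ha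
      have h3 := card_box r b hN1
      have h4 : lam ^ 2 < ‖FF r (box r b N) a w.1 w.2‖ ^ 2 := pow_lt_pow_left₀ hw hlam.le two_ne_zero
      linarith
    rw [h1, measure_empty, ENNReal.toReal_zero]
    positivity
  push Not at hbig
  -- the exponents
  have hrp : (0 : ℝ) < (r : ℝ) + 1 := by positivity
  set Lm : ℝ := lam ^ (2 / ((r : ℝ) + 1)) with hLmdef
  have hLm0 : 0 < Lm := Real.rpow_pos_of_pos hlam _
  have hLmpow : Lm ^ (r + 1) = lam ^ 2 := by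
    rw [hLmdef, ← Real.rpow_natCast, ← Real.rpow_mul hlam.le, ← Real.rpow_natCast lam 2]
    congr 1
    push_cast
    field_simp
  have hLm2 : Lm ≤ 2 * N := by
    rw [← hLmpow] at hbig
    exact (lt_of_pow_lt_pow_left₀ (r + 1) (by positivity) hbig).le
  set μ : ℝ := N / Lm with hμdef
  have hμ0 : 0 < μ := by positivity
  have hμ2 : 1 / 2 ≤ μ := by
    rw [hμdef, le_div_iff₀ hLm0]
    linarith
  have hLam' : N ^ (((r : ℝ) + 1) / 2) / lam = μ ^ (((r : ℝ) + 1) / 2) := by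
    rw [hμdef, Real.div_rpow hN0.le hLm0.le, hLmdef, ← Real.rpow_mul hlam.le]
    congr 1
    rw [div_mul_div_comm, mul_comm, div_self (by positivity), Real.rpow_one]
  have hNc2 : 2 ≤ N ^ c₁ := by
    have h1 : (2 : ℝ) = ((2 : ℝ) ^ (64 * (r + 3))) ^ c₁ := by
      rw [← Real.rpow_natCast, ← Real.rpow_mul (by norm_num), hc₁]
      have h2 : ((64 * (r + 3) : ℕ) : ℝ) * (1 / (64 * ((r : ℝ) + 3))) = 1 := by
        push_cast
        field_simp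
      rw [h2, Real.rpow_one]
    calc (2 : ℝ) = ((2 : ℝ) ^ (64 * (r + 3))) ^ c₁ := h1
      _ ≤ N ^ c₁ := Real.rpow_le_rpow (by positivity) hN2 hc₁pos.le
  have hμN : μ ≤ N ^ c₁ := by
    rcases le_total μ 1 with h1 | h1
    · linarith
    · calc μ = μ ^ (1 : ℝ) := (Real.rpow_one μ).symm
        _ ≤ μ ^ (((r : ℝ) + 1) / 2) := by
            refine Real.rpow_le_rpow_of_exponent_le h1 ?_
            have : (1 : ℝ) ≤ r := by exact_mod_cast hr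
            linarith
        _ ≤ N ^ c₁ := by rw [← hLam']; exact hLam
  set P : ℝ := N ^ (1 / 32 : ℝ) with hPdef
  have hP0 : 0 ≤ P := Real.rpow_nonneg hN0.le _
  have hP32 : P ^ 32 = N := by
    rw [hPdef, ← Real.rpow_natCast, ← Real.rpow_mul hN0.le]
    norm_num
  have hPP₀ : P₀ ≤ P := by
    rw [← hP32] at hNP
    exact (pow_le_pow_iff_left₀ (by linarith) hP0 (by norm_num)).1 hNP
  have hVP : (R * max μ 2) ^ (r + 3) ≤ P := by
    have h1 : R * max μ 2 ≤ N ^ c₁ * N ^ c₁ :=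
      mul_le_mul hR (max_le hμN hNc2) (by positivity) (by positivity)
    calc (R * max μ 2) ^ (r + 3) ≤ (N ^ c₁ * N ^ c₁) ^ (r + 3) := pow_le_pow_left₀ (by positivity) h1 _
      _ = P := by
          rw [← Real.rpow_add hN0, ← Real.rpow_natCast, ← Real.rpow_mul hN0.le, hPdef, hc₁]
          congr 1
          push_cast
          field_simp
          norm_num
  obtain ⟨X, D, hX1, hzX, hXN, hD, hXD, hXlow, ht1, ht2, ht3⟩ := hfit P R μ hPP₀ hR1 hμ2 hVP _ _ rfl rfl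
  set z : ℝ := Z * (R * max μ 2) ^ (2 * (r + 3)) with hz
  set l : ℝ := Real.log z with hl
  rw [hP32] at hXN hD hXD hXlow ht1 ht2 ht3
  have hNμ : N / μ = Lm := by
    rw [hμdef]
    field_simp
  rw [hNμ] at hXlow ht1 ht2 ht3
  have hV1 : 1 ≤ R * max μ 2 := hR1.trans (le_mul_of_one_le_right (by linarith)
    ((by norm_num : (1 : ℝ) ≤ 2).trans (le_max_right _ _)))
  have hzpos : Z ≤ z := le_mul_of_one_le_right (by linarith) (one_le_pow₀ hV1)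
  have hz3 : 3 ≤ z := hZ3.trans hzpos
  have hl1 : 1 ≤ l := by
    rw [hl, Real.le_log_iff_exp_le (by linarith)]
    have := Real.exp_one_lt_d9
    linarith
  have hX0 : (0 : ℝ) < X := by exact_mod_cast hX1
  have hRN : (|b 0| + N) * N = R * N ^ 2 := by
    rw [hRdef]
    field_simp
  set M : ℕ := ⌈(4 + 2 * (r : ℝ)) * ((|b 0| + N) * N)⌉₊ with hM
  have hM1 : (4 + 2 * (r : ℝ)) * ((|b 0| + N) * N) ≤ M := Nat.le_ceil _
  have hM2 : (M : ℝ) ≤ (5 + 2 * (r : ℝ)) * R * N ^ 2 := by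
    have h1 := Nat.ceil_lt_add_one (show 0 ≤ (4 + 2 * (r : ℝ)) * ((|b 0| + N) * N) by positivity)
    rw [← hM, hRN] at h1
    have h2 : 1 ≤ R * N ^ 2 := by
      have h3 := one_le_pow₀ hN1 (n := 2)
      exact hR1.trans (le_mul_of_one_le_right (by linarith) h3)
    linarith
  have hvol := vol_le hd hpsi htop hc hrough b N lam z M D X a hN0.le hlam (hZz.trans hzpos) (by linarith) hX1 hzX
    hM1 ?_ hD ?_ ?_ ha
  · refine hvol.trans ?_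
    -- the final bound
    have hlog : l ≤ (Real.log Z + 2 * ((r : ℝ) + 3)) * (1 + |Real.log (N ^ (((r : ℝ) + 1) / 2) / lam)| + Real.log R) := by
      have hmax0 : 0 < max μ 2 := lt_max_of_lt_left hμ0
      have h1 : l = Real.log Z + 2 * ((r : ℝ) + 3) * (Real.log R + Real.log (max μ 2)) := by
        rw [hl, hz, Real.log_mul (by linarith) (by positivity), Real.log_pow, Real.log_mul (by linarith) hmax0.ne']
        push_cast
        ring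
      have h2 : Real.log (max μ 2) ≤ 1 + |Real.log μ| := by
        rcases max_cases μ 2 with ⟨h3, _⟩ | ⟨h3, _⟩
        · rw [h3]
          have := le_abs_self (Real.log μ)
          linarith
        · rw [h3]
          have := Real.log_two_lt_d9
          have := abs_nonneg (Real.log μ)
          linarith
      have h3 : |Real.log μ| ≤ |Real.log (N ^ (((r : ℝ) + 1) / 2) / lam)| := by
        rw [hLam', Real.log_rpow hμ0, abs_mul]
        refine le_mul_of_one_le_left (abs_nonneg _) ?_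
        have h4 : (1 : ℝ) ≤ r := by exact_mod_cast hr
        rw [abs_of_nonneg (by positivity)]
        linarith
      rw [h1]
      set Q : ℝ := |Real.log (N ^ (((r : ℝ) + 1) / 2) / lam)| with hQ
      have h4 : Real.log R + Real.log (max μ 2) ≤ 1 + Q + Real.log R := by linarith
      have h5 := mul_le_mul_of_nonneg_left h4 (show 0 ≤ 2 * ((r : ℝ) + 3) by positivity)
      have h6 : Real.log Z ≤ Real.log Z * (1 + Q + Real.log R) := le_mul_of_one_le_right hlZ.le (by linarith)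
      linarith
    set Q : ℝ := 1 + |Real.log (N ^ (((r : ℝ) + 1) / 2) / lam)| + Real.log R with hQ
    have hQ1 : 1 ≤ Q := by linarith
    have hl3 : l ^ (3 * κ) ≤ (Real.log Z + 2 * ((r : ℝ) + 3)) ^ (3 * κ) * Q ^ (3 * κ) := by
      rw [← mul_pow]
      exact pow_le_pow_left₀ (by linarith) hlog _
    have hlampow2 : lam ^ (-(2 + 2 / ((r : ℝ) + 1))) = 1 / (Lm * lam ^ 2) := by
      rw [Real.rpow_neg hlam.le, ← one_div, Real.rpow_add hlam, mul_comm Lm, Real.rpow_two]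
    have h1 : 2 ^ (r + 3) * (2 * Real.pi) ^ (r + 1) / (c * X / l ^ κ * lam ^ 2) ≤
        2 ^ (r + 3) * (2 * Real.pi) ^ (r + 1) / (c * (c₅ * Lm / (2 * l ^ (2 * κ))) / l ^ κ * lam ^ 2) := by
      refine div_le_div_of_nonneg_left (by positivity) (by positivity) ?_
      refine mul_le_mul_of_nonneg_right ?_ (by positivity)
      exact div_le_div_of_nonneg_right (mul_le_mul_of_nonneg_left hXlow hc.le) (by positivity)
    refine h1.trans ?_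
    have h2 : 2 ^ (r + 3) * (2 * Real.pi) ^ (r + 1) / (c * (c₅ * Lm / (2 * l ^ (2 * κ))) / l ^ κ * lam ^ 2) =
        2 ^ (r + 3) * (2 * Real.pi) ^ (r + 1) * (2 / (c * c₅)) * l ^ (3 * κ) * (1 / (Lm * lam ^ 2)) := by
      have h3 : l ^ (3 * κ) = l ^ (2 * κ) * l ^ κ := by
        rw [← pow_add]
        congr 1
        ring
      rw [h3]
      field_simp
    rw [h2, hlampow2]
    refine mul_le_mul_of_nonneg_right ?_ (by positivity)
    calc 2 ^ (r + 3) * (2 * Real.pi) ^ (r + 1) * (2 / (c * c₅)) * l ^ (3 * κ)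
        ≤ 2 ^ (r + 3) * (2 * Real.pi) ^ (r + 1) * (2 / (c * c₅)) *
          ((Real.log Z + 2 * ((r : ℝ) + 3)) ^ (3 * κ) * Q ^ (3 * κ)) := mul_le_mul_of_nonneg_left hl3 (by positivity)
      _ = C₂ * Q ^ (3 * κ) := by
          rw [hC₂]
          ring
      _ ≤ _ := mul_le_mul_of_nonneg_right (le_max_right _ _) (by positivity)
  · -- 16 X ^ 2 ≤ M
    have h1 : 16 * (X : ℝ) ^ 2 ≤ M := by
      have h2 : (X : ℝ) ^ 2 ≤ (N / 2) ^ 2 := pow_le_pow_left₀ hX0.le hXN 2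
      have h3 : 4 * N ^ 2 ≤ (4 + 2 * (r : ℝ)) * ((|b 0| + N) * N) := by
        rw [hRN]
        have h4 : N ^ 2 ≤ R * N ^ 2 := le_mul_of_one_le_left (by positivity) hR1
        have h5 : 0 ≤ 2 * (r : ℝ) * (R * N ^ 2) := by positivity
        linarith
      linarith
    exact_mod_cast h1
  · have h1 : 4 * (X : ℝ) * M ≤ (D : ℝ) ^ 2 :=
      (mul_le_mul_of_nonneg_left hM2 (by positivity)).trans hXD
    exact_mod_cast h1
  · -- the key inequality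
    have hM' : 2 * (⌊N⌋₊ : ℝ) + 1 ≤ 3 * N := by
      have := Nat.floor_le hN0.le
      linarith
    have hsz : 0 ≤ Real.sqrt z := Real.sqrt_nonneg _
    have hD1 : (1 : ℝ) ≤ D := by
      have : 1 ≤ D := by omega
      exact_mod_cast this
    have hlD : 0 ≤ 1 + Real.log D := by
      have := Real.log_nonneg hD1
      linarith
    have e1 : M * (2 * (⌊N⌋₊ : ℝ) + 1) ^ r * X / Real.sqrt z ≤
        ((5 + 2 * (r : ℝ)) * R * N ^ 2) * (3 * N) ^ r * X / Real.sqrt z := by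
      refine div_le_div_of_nonneg_right (mul_le_mul_of_nonneg_right ?_ hX0.le) hsz
      exact mul_le_mul hM2 (pow_le_pow_left₀ (by positivity) hM' r) (by positivity) (by positivity)
    have e2 : M * X * (Real.sqrt D) ^ r * (1 + Real.log D) ≤
        ((5 + 2 * (r : ℝ)) * R * N ^ 2) * X * (Real.sqrt D) ^ r * (1 + Real.log D) := by
      refine mul_le_mul_of_nonneg_right (mul_le_mul_of_nonneg_right ?_ (by positivity)) hlD
      exact mul_le_mul_of_nonneg_right hM2 hX0.le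
    have e3 : Ct * (3 * (δ * X ^ 2 * Lm ^ (r + 1) / l ^ (2 * κ))) = (c * X / l ^ κ) ^ 2 * lam ^ 2 / 2 ^ (r + 3) := by
      rw [hLmpow, hδdef, div_pow, ← pow_mul, mul_comm κ 2]
      field_simp
    rw [← e3]
    refine mul_le_mul_of_nonneg_left ?_ hCt.le
    linarith

end Pool.Agent.Helper71.AS
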